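import Mathlib

/-!
# Heights of cross ratios of preperiodic points: the coefficients of a map with many values of
small height
-/

set_option autoImplicit false

namespace Pool.Agent.E8helper65.HS

open Polynomial Finset

/-- the axioms of a height on a field -/
structure HtF {K : Type*} [Field K] (h : K → ℝ) : Prop where
  nonneg : ∀ x, 0 ≤ h x
  zero : h 0 = 0
  one : h 1 = 0
  neg : ∀ x, h (-x) ≤ h x
  add : ∀ x y, h (x + y) ≤ h x + h y
  mul : ∀ x y, h (x * y) ≤ h x + h y
  inv : ∀ x, h x⁻¹ ≤ h x

namespace HtF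

variable {K : Type*} [Field K] {h : K → ℝ} (H : HtF h)
include H

lemma sum {ι : Type*} (s : Finset ι) (f : ι → K) : h (∑ i ∈ s, f i) ≤ ∑ i ∈ s, h (f i) := by
  classical
  induction s using Finset.induction_on with
  | empty => simp [H.zero]
  | insert a s ha ih =>
    rw [Finset.sum_insert ha, Finset.sum_insert ha]
    exact (H.add _ _).trans (by linarith)

lemma prod {ι : Type*} (s : Finset ι) (f : ι → K) : h (∏ i ∈ s, f i) ≤ ∑ i ∈ s, h (f i) := by
  classical
  induction s using Finset.induction_on with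
  | empty => simp [H.one]
  | insert a s ha ih =>
    rw [Finset.prod_insert ha, Finset.sum_insert ha]
    exact (H.mul _ _).trans (by linarith)

lemma pow (x : K) (n : ℕ) : h (x ^ n) ≤ n * h x := by
  induction n with
  | zero => simp [H.one]
  | succ n ih =>
    rw [pow_succ]
    refine (H.mul _ _).trans ?_
    push_cast
    linarith

lemma sign {n : Type*} [Fintype n] [DecidableEq n] (σ : Equiv.Perm n) (x : K) :
    h (Equiv.Perm.sign σ • x) ≤ h x := by
  rcases Int.units_eq_one_or (Equiv.Perm.sign σ) with h1 | h1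
  · rw [h1, one_smul]
  · rw [h1, Units.neg_smul, one_smul]
    exact H.neg x

lemma det {n : Type*} [Fintype n] [DecidableEq n] (A : Matrix n n K) (B : ℝ)
    (hA : ∀ i j, h (A i j) ≤ B) :
    h A.det ≤ (Fintype.card n).factorial * (Fintype.card n * B) := by
  rw [Matrix.det_apply]
  refine (H.sum _ _).trans ?_
  calc ∑ σ : Equiv.Perm n, h (Equiv.Perm.sign σ • ∏ i, A (σ i) i)
      ≤ ∑ _σ : Equiv.Perm n, (Fintype.card n * B) := by
        apply Finset.sum_le_sum
        intro σ _
        refine (H.sign σ _).trans ((H.prod _ _).trans ?_)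
        calc ∑ i, h (A (σ i) i) ≤ ∑ _i : n, B := Finset.sum_le_sum fun i _ => hA _ _
          _ = Fintype.card n * B := by simp
    _ = (Fintype.card n).factorial * (Fintype.card n * B) := by
        simp [Fintype.card_perm]

/-- Cramer's rule -/
lemma solve {n : Type*} [Fintype n] [DecidableEq n] (A : Matrix n n K) (b x : n → K) (B : ℝ)
    (hA : ∀ i j, h (A i j) ≤ B) (hb : ∀ i, h (b i) ≤ B) (hx : A.mulVec x = b) (hdet : A.det ≠ 0)
    (j : n) : h (x j) ≤ 2 * ((Fintype.card n).factorial * (Fintype.card n * B)) := by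
  have h1 : A.mulVec (A.cramer b) = A.det • b := Matrix.mulVec_cramer A b
  have h2 : A.mulVec (A.det • x) = A.det • b := by rw [Matrix.mulVec_smul, hx]
  have hinj : Function.Injective A.mulVec := by
    rw [Matrix.mulVec_injective_iff_isUnit, Matrix.isUnit_iff_isUnit_det]
    exact isUnit_iff_ne_zero.mpr hdet
  have h3 : A.cramer b = A.det • x := hinj (h1.trans h2.symm)
  have h4 : A.cramer b j = A.det * x j := by rw [h3]; rfl
  have h5 : x j = A.det⁻¹ * A.cramer b j := by
    rw [h4, ← mul_assoc, inv_mul_cancel₀ hdet, one_mul]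
  rw [h5]
  refine (H.mul _ _).trans ?_
  have e1 : h A.det⁻¹ ≤ (Fintype.card n).factorial * (Fintype.card n * B) :=
    (H.inv _).trans (H.det A B hA)
  have e2 : h (A.cramer b j) ≤ (Fintype.card n).factorial * (Fintype.card n * B) := by
    rw [Matrix.cramer_apply]
    apply H.det
    intro i j'
    rw [Matrix.updateCol_apply]
    split_ifs
    · exact hb i
    · exact hA i j'
  linarith

end HtF

/-- two maps which agree at many points are proportional -/
lemma prop_of_agree {K : Type*} [Field K] (d : ℕ) (hd : 1 ≤ d) (u w u' w' : K[X])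
    (hco : IsCoprime u w) (hmax : max u.natDegree w.natDegree = d) (hu' : u'.natDegree ≤ d)
    (hw' : w'.natDegree ≤ d) (x : Fin (2 * d + 1) → K) (hx : Function.Injective x)
    (h1 : ∀ i, w.eval (x i) ≠ 0)
    (h2 : ∀ i, u'.eval (x i) = u.eval (x i) / w.eval (x i) * w'.eval (x i)) :
    ∃ s : K, u' = C s * u ∧ w' = C s * w := by
  classical
  have hu : u.natDegree ≤ d := hmax ▸ le_max_left _ _
  have hw : w.natDegree ≤ d := hmax ▸ le_max_right _ _
  have h3 : u * w' - u' * w = 0 := by
    by_contra hne
    have hdeg : (u * w' - u' * w).natDegree ≤ 2 * d := by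
      refine (natDegree_sub_le _ _).trans (max_le ?_ ?_)
      · exact natDegree_mul_le.trans (by omega)
      · exact natDegree_mul_le.trans (by omega)
    have hroots : (Finset.univ.image x).card ≤ (u * w' - u' * w).natDegree := by
      apply Polynomial.card_le_degree_of_subset_roots
      intro y hy
      rw [Finset.mem_val, Finset.mem_image] at hy
      obtain ⟨i, -, rfl⟩ := hy
      rw [mem_roots hne, IsRoot.def, eval_sub, eval_mul, eval_mul, h2 i]
      have := h1 i
      field_simp
      ring
    rw [Finset.card_image_of_injective _ hx, Finset.card_univ, Fintype.card_fin] at hroots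
    omega
  have h4 : u * w' = u' * w := sub_eq_zero.mp h3
  have hdvd : u ∣ u' := by
    apply hco.dvd_of_dvd_mul_right
    rw [← h4]
    exact dvd_mul_right _ _
  obtain ⟨s, hs⟩ := hdvd
  have hw0 : w ≠ 0 := by
    rintro rfl
    exact h1 ⟨0, by omega⟩ eval_zero
  have h5 : w' = s * w := by
    rcases eq_or_ne u 0 with hu0 | hu0
    · -- then `w` is a unit
      have hwu : IsUnit w := by
        rw [hu0, isCoprime_zero_left] at hco
        exact hco
      have h6 : w.natDegree = 0 := natDegree_eq_zero_of_isUnit hwu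
      rw [hu0, h6] at hmax
      simp at hmax
      omega
    · apply mul_left_cancel₀ hu0
      rw [h4, hs]
      ring
  have hsd : s.natDegree = 0 := by
    rcases eq_or_ne s 0 with h0 | h0
    · rw [h0, natDegree_zero]
    · rcases le_total u.natDegree w.natDegree with hle | hle
      · rw [max_eq_right hle] at hmax
        have h6 : w'.natDegree = s.natDegree + w.natDegree := by
          rw [h5, natDegree_mul h0 hw0]
        omega
      · rw [max_eq_left hle] at hmax
        have hu0 : u ≠ 0 := by
          rintro rfl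
          rw [natDegree_zero] at hmax
          omega
        have h6 : u'.natDegree = u.natDegree + s.natDegree := by
          rw [hs, natDegree_mul hu0 h0]
        omega
  obtain ⟨c, rfl⟩ := natDegree_eq_zero.mp hsd
  exact ⟨c, by rw [hs, mul_comm], h5⟩

/-- **The coefficients.** -/
theorem coef_bound (d : ℕ) (hd : 1 ≤ d) {K : Type*} [Field K] {h : K → ℝ} (H : HtF h) (B : ℝ)
    (u w : K[X]) (hco : IsCoprime u w) (hmax : max u.natDegree w.natDegree = d)
    (x : Fin (2 * d + 1) → K) (hx : Function.Injective x) (h1 : ∀ i, w.eval (x i) ≠ 0)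
    (hB : ∀ i, h (x i) ≤ B) (hB' : ∀ i, h (u.eval (x i) / w.eval (x i)) ≤ B) :
    ∃ s : K, s ≠ 0 ∧ ∀ n, h (s * u.coeff n) ≤
        2 * ((2 * d + 1).factorial * ((2 * d + 1 : ℕ) * ((d + 1) * B))) ∧
      h (s * w.coeff n) ≤ 2 * ((2 * d + 1).factorial * ((2 * d + 1 : ℕ) * ((d + 1) * B))) := by
  classical
  have hB0 : 0 ≤ B := (H.nonneg _).trans (hB ⟨0, by omega⟩)
  have hu : u.natDegree ≤ d := hmax ▸ le_max_left _ _
  have hw : w.natDegree ≤ d := hmax ▸ le_max_right _ _
  set y : Fin (2 * d + 1) → K := fun i => u.eval (x i) / w.eval (x i) with hy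
  set A : Fin (2 * d + 1) → (Fin (d + 1) ⊕ Fin (d + 1)) → K :=
    fun i => Sum.elim (fun j => x i ^ (j : ℕ)) (fun j => -(y i * x i ^ (j : ℕ))) with hA
  set c : (Fin (d + 1) ⊕ Fin (d + 1)) → K :=
    Sum.elim (fun j => u.coeff j) (fun j => w.coeff j) with hc
  have hAB : ∀ i j, h (A i j) ≤ (d + 1) * B := by
    have hpow : ∀ i (j : Fin (d + 1)), h (x i ^ (j : ℕ)) ≤ d * B := by
      intro i j
      refine (H.pow _ _).trans ?_
      have h2 : ((j : ℕ) : ℝ) ≤ d := by exact_mod_cast Nat.lt_succ_iff.mp j.2
      calc ((j : ℕ) : ℝ) * h (x i) ≤ (d : ℝ) * h (x i) :=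
            mul_le_mul_of_nonneg_right h2 (H.nonneg _)
        _ ≤ d * B := mul_le_mul_of_nonneg_left (hB i) (Nat.cast_nonneg _)
    intro i j
    rcases j with j | j
    · refine (hpow i j).trans ?_
      linarith
    · refine (H.neg _).trans ((H.mul _ _).trans ?_)
      have := hpow i j
      have := hB' i
      linarith
  have hrow : ∀ i (c' : (Fin (d + 1) ⊕ Fin (d + 1)) → K),
      ∑ j, A i j * c' j = ∑ j : Fin (d + 1), c' (Sum.inl j) * x i ^ (j : ℕ) -
        y i * ∑ j : Fin (d + 1), c' (Sum.inr j) * x i ^ (j : ℕ) := by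
    intro i c'
    rw [Fintype.sum_sum_type, Finset.mul_sum, sub_eq_add_neg, ← Finset.sum_neg_distrib]
    congr 1
    · apply Finset.sum_congr rfl
      intro j _
      simp only [hA, Sum.elim_inl]
      ring
    · apply Finset.sum_congr rfl
      intro j _
      simp only [hA, Sum.elim_inr]
      ring
  have hker : ∀ c' : (Fin (d + 1) ⊕ Fin (d + 1)) → K, (∀ i, ∑ j, A i j * c' j = 0) →
      ∃ s : K, ∀ j, c' j = s * c j := by
    intro c' hc'
    set u' : K[X] := ∑ j : Fin (d + 1), monomial (j : ℕ) (c' (Sum.inl j)) with hu'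
    set w' : K[X] := ∑ j : Fin (d + 1), monomial (j : ℕ) (c' (Sum.inr j)) with hw'
    have hdeg : ∀ f : Fin (d + 1) → K,
        (∑ j : Fin (d + 1), monomial (j : ℕ) (f j) : K[X]).natDegree ≤ d := by
      intro f
      apply natDegree_sum_le_of_forall_le
      intro j _
      exact (natDegree_monomial_le _).trans (Nat.lt_succ_iff.mp j.2)
    have heval : ∀ (f : Fin (d + 1) → K) (z : K),
        (∑ j : Fin (d + 1), monomial (j : ℕ) (f j) : K[X]).eval z = ∑ j, f j * z ^ (j : ℕ) := by
      intro f z
      rw [eval_finset_sum]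
      apply Finset.sum_congr rfl
      intro j _
      rw [eval_monomial]
    have hcoef : ∀ (f : Fin (d + 1) → K) (j : Fin (d + 1)),
        (∑ j : Fin (d + 1), monomial (j : ℕ) (f j) : K[X]).coeff j = f j := by
      intro f j
      rw [finset_sum_coeff, Finset.sum_eq_single j]
      · rw [coeff_monomial, if_pos rfl]
      · intro j' _ hne
        rw [coeff_monomial, if_neg]
        intro h'
        exact hne (Fin.ext h')
      · intro h'
        exact absurd (Finset.mem_univ _) h'
    obtain ⟨s, hs1, hs2⟩ := prop_of_agree d hd u w u' w' hco hmax (hdeg _) (hdeg _) x hx h1 (by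
      intro i
      have h2 := hc' i
      rw [hrow] at h2
      rw [hu', hw', heval, heval]
      exact sub_eq_zero.mp h2)
    refine ⟨s, ?_⟩
    rintro (j | j)
    · have h2 := congrArg (fun f => f.coeff (j : ℕ)) hs1
      simp only [coeff_C_mul] at h2
      rw [hu', hcoef] at h2
      exact h2
    · have h2 := congrArg (fun f => f.coeff (j : ℕ)) hs2
      simp only [coeff_C_mul] at h2
      rw [hw', hcoef] at h2
      exact h2
  have hcoefsum : ∀ (f : K[X]), f.natDegree ≤ d → ∀ z, f.eval z = ∑ j : Fin (d + 1),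
      f.coeff j * z ^ (j : ℕ) := by
    intro f hf z
    rw [eval_eq_sum_range' (Nat.lt_succ_of_le hf), Finset.sum_range]
  have hck : ∀ i, ∑ j, A i j * c j = 0 := by
    intro i
    rw [hrow]
    simp only [hc, Sum.elim_inl, Sum.elim_inr]
    rw [← hcoefsum u hu, ← hcoefsum w hw, hy]
    have := h1 i
    field_simp
    ring
  -- a coefficient which is not zero
  obtain ⟨j0, hj0⟩ : ∃ j0, c j0 ≠ 0 := by
    by_contra hcon
    push Not at hcon
    have hw0 : w = 0 := by
      ext n
      rcases Nat.lt_or_ge n (d + 1) with hn | hn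
      · have := hcon (Sum.inr ⟨n, hn⟩)
        simpa [hc] using this
      · rw [coeff_eq_zero_of_natDegree_lt (by omega), coeff_zero]
    exact h1 ⟨0, by omega⟩ ((congrArg (fun g : K[X] => g.eval (x ⟨0, by omega⟩)) hw0).trans
      eval_zero)
  have hcard : Fintype.card {j : Fin (d + 1) ⊕ Fin (d + 1) // j ≠ j0} = 2 * d + 1 := by
    rw [Fintype.card_subtype_compl, Fintype.card_sum, Fintype.card_fin,
      Fintype.card_subtype_eq]
    omega
  let e : Fin (2 * d + 1) ≃ {j : Fin (d + 1) ⊕ Fin (d + 1) // j ≠ j0} :=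
    (Fintype.equivFinOfCardEq hcard).symm
  set A' : Matrix (Fin (2 * d + 1)) (Fin (2 * d + 1)) K := fun i j => A i (e j).1 with hA'
  have hsplit : ∀ (g : (Fin (d + 1) ⊕ Fin (d + 1)) → K), ∑ j, g j = g j0 + ∑ j, g (e j).1 := by
    intro g
    rw [← Finset.add_sum_erase _ _ (Finset.mem_univ j0)]
    congr 1
    rw [← Equiv.sum_comp e.symm]
    simp only [Equiv.apply_symm_apply]
    apply Finset.sum_subtype
    intro j
    simp
  have hdet : A'.det ≠ 0 := by
    intro h0
    obtain ⟨z, hz0, hz⟩ := Matrix.exists_mulVec_eq_zero_iff.mpr h0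
    obtain ⟨s, hs⟩ := hker (fun j => if hj : j = j0 then 0 else z (e.symm ⟨j, hj⟩)) (by
      intro i
      rw [hsplit]
      rw [dif_pos rfl, mul_zero, zero_add]
      have h2 := congrFun hz i
      rw [Matrix.mulVec, dotProduct] at h2
      rw [Pi.zero_apply] at h2
      refine Eq.trans ?_ h2
      apply Finset.sum_congr rfl
      intro j _
      rw [dif_neg (e j).2]
      simp [hA'])
    have h2 := hs j0
    rw [dif_pos rfl] at h2
    have hs0 : s = 0 := (mul_eq_zero.mp h2.symm).resolve_right hj0
    apply hz0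
    funext j
    have h3 := hs (e j).1
    rw [dif_neg (e j).2, hs0, zero_mul] at h3
    simpa using h3
  refine ⟨(c j0)⁻¹, inv_ne_zero hj0, ?_⟩
  set b : Fin (2 * d + 1) → K := fun i => -A i j0 with hb
  set X' : Fin (2 * d + 1) → K := fun j => (c j0)⁻¹ * c (e j).1 with hX'
  have hsol : A'.mulVec X' = b := by
    funext i
    have h2 := hck i
    rw [hsplit] at h2
    rw [Matrix.mulVec, dotProduct]
    simp only [hA', hX', hb]
    have h3 : ∑ j, A i (e j).1 * ((c j0)⁻¹ * c (e j).1) =
        (c j0)⁻¹ * ∑ j, A i (e j).1 * c (e j).1 := by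
      rw [Finset.mul_sum]
      apply Finset.sum_congr rfl
      intro j _
      ring
    rw [h3]
    have h4 : ∑ j, A i (e j).1 * c (e j).1 = -(A i j0 * c j0) := by linear_combination h2
    rw [h4]
    field_simp
  have hall : ∀ j, h ((c j0)⁻¹ * c j) ≤
      2 * ((2 * d + 1).factorial * ((2 * d + 1 : ℕ) * ((d + 1) * B))) := by
    intro j
    by_cases hj : j = j0
    · rw [hj, inv_mul_cancel₀ hj0, H.one]
      positivity
    · have h2 := H.solve A' b X' ((d + 1) * B) (fun i j' => hAB i _)
        (fun i => (H.neg _).trans (hAB i _)) hsol hdet (e.symm ⟨j, hj⟩)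
      rw [Fintype.card_fin] at h2
      simp only [hX', Equiv.apply_symm_apply] at h2
      exact h2
  have hpos : (0 : ℝ) ≤ 2 * ((2 * d + 1).factorial * ((2 * d + 1 : ℕ) * ((d + 1) * B))) := by
    positivity
  intro n
  constructor
  · rcases Nat.lt_or_ge n (d + 1) with hn | hn
    · exact hall (Sum.inl ⟨n, hn⟩)
    · rw [coeff_eq_zero_of_natDegree_lt (by omega), mul_zero, H.zero]
      exact hpos
  · rcases Nat.lt_or_ge n (d + 1) with hn | hn
    · exact hall (Sum.inr ⟨n, hn⟩)
    · rw [coeff_eq_zero_of_natDegree_lt (by omega), mul_zero, H.zero]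
      exact hpos

end Pool.Agent.E8helper65.HS
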