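import Pool.Agent.E8helper65.HS.Opt
import Pool.Agent.E8helper65.HS.Coef

/-!
# Heights of cross ratios of preperiodic points: conjugation by the cross ratio
-/

set_option autoImplicit false

namespace Pool.Agent.E8helper65.HS

open Pool.Agent.W277.UB Pool.Agent.W277.UG Pool.Agent.W277.UH Finset Polynomial

section
variable {K : Type*} [Field K]

lemma hev_hc (d : ℕ) (A : K[X]) (α β γ δ : K) (Z : K × K) :
    hev d (hc d A (C α * X + C β) (C γ * X + C δ)) Z =
      hev d A (α * Z.1 + β * Z.2, γ * Z.1 + δ * Z.2) := by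
  obtain ⟨z, w⟩ := Z
  have hdeg : (hc d A (C α * X + C β) (C γ * X + C δ)).natDegree ≤ d := by
    have := hc_degree d 1 A _ _ (lin_deg α β) (lin_deg γ δ)
    rwa [mul_one] at this
  by_cases hw : w = 0
  · subst hw
    rw [hev_zero]
    have h := hc_coeff d 1 A _ _ (lin_deg α β) (lin_deg γ δ)
    rw [mul_one] at h
    rw [h]
    have e1 : (C α * X + C β : K[X]).coeff 1 = α := by simp [coeff_C]
    have e2 : (C γ * X + C δ : K[X]).coeff 1 = γ := by simp [coeff_C]
    rw [e1, e2]
    have e3 : ((α * (z, (0 : K)).1 + β * (z, (0 : K)).2, γ * (z, (0 : K)).1 + δ * (z, (0 : K)).2) :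
        K × K) = z • ((α, γ) : K × K) := by
      ext
      · simp [mul_comm]
      · simp [mul_comm]
    rw [e3, hev_smul]
    ring
  · rw [hev_eval d _ hdeg _ hw, hc_eval]
    simp only [eval_add, eval_mul, eval_C, eval_X]
    rw [← hev_smul]
    congr 1
    ext
    · simp only [Prod.smul_fst, smul_eq_mul]
      field_simp
    · simp only [Prod.smul_snd, smul_eq_mul]
      field_simp

lemma hev_lin (d : ℕ) (a b : K) (p q : K[X]) (Z : K × K) :
    hev d (C a * p + C b * q) Z = a * hev d p Z + b * hev d q Z := by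
  unfold hev
  rw [Finset.mul_sum, Finset.mul_sum, ← Finset.sum_add_distrib]
  apply Finset.sum_congr rfl
  intro i _
  rw [coeff_add, coeff_C_mul, coeff_C_mul]
  ring

lemma both_ne (d : ℕ) (p q : K[X]) (hp : p.natDegree ≤ d) (hq : q.natDegree ≤ d)
    (hco : IsCoprime p q) (hlead : p.coeff d ≠ 0 ∨ q.coeff d ≠ 0) (Z : K × K) (hZ : Z ≠ 0)
    (h1 : hev d p Z = 0) (h2 : hev d q Z = 0) : False := by
  obtain ⟨z, w⟩ := Z
  by_cases hw : w = 0
  · subst hw
    have hz : z ≠ 0 := by
      rintro rfl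
      exact hZ rfl
    rw [hev_zero] at h1 h2
    have g1 := (mul_eq_zero.mp h1).resolve_right (pow_ne_zero _ hz)
    have g2 := (mul_eq_zero.mp h2).resolve_right (pow_ne_zero _ hz)
    rcases hlead with h | h
    · exact h g1
    · exact h g2
  · rw [hev_eval d _ hp _ hw] at h1
    rw [hev_eval d _ hq _ hw] at h2
    have g1 := (mul_eq_zero.mp h1).resolve_left (pow_ne_zero _ hw)
    have g2 := (mul_eq_zero.mp h2).resolve_left (pow_ne_zero _ hw)
    obtain ⟨u, v, huv⟩ := hco
    have := congrArg (eval ((z, w).1 / (z, w).2)) huv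
    rw [eval_add, eval_mul, eval_mul, g1, g2, mul_zero, mul_zero, add_zero, eval_one] at this
    exact zero_ne_one this

/-- the conjugate numerator -/
noncomputable def cu (d : ℕ) (a b c e : K) (p q : K[X]) : K[X] :=
  hc d (C a * p + C b * q) (C e * X + C (-b)) (C (-c) * X + C a)

/-- the conjugate denominator -/
noncomputable def cw (d : ℕ) (a b c e : K) (p q : K[X]) : K[X] :=
  hc d (C c * p + C e * q) (C e * X + C (-b)) (C (-c) * X + C a)

lemma cu_hev (d : ℕ) (a b c e : K) (p q : K[X]) (Z : K × K) :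
    hev d (cu d a b c e p q) (a * Z.1 + b * Z.2, c * Z.1 + e * Z.2) =
      (a * e - b * c) ^ d * (a * hev d p Z + b * hev d q Z) := by
  unfold cu
  rw [hev_hc, hev_lin]
  have e1 : ((e * (a * Z.1 + b * Z.2, c * Z.1 + e * Z.2).1 +
      -b * (a * Z.1 + b * Z.2, c * Z.1 + e * Z.2).2,
      -c * (a * Z.1 + b * Z.2, c * Z.1 + e * Z.2).1 +
      a * (a * Z.1 + b * Z.2, c * Z.1 + e * Z.2).2) : K × K) = (a * e - b * c) • Z := by
    ext
    · simp only [Prod.smul_fst, smul_eq_mul]
      ring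
    · simp only [Prod.smul_snd, smul_eq_mul]
      ring
  rw [e1, hev_smul, hev_smul]
  ring

lemma cw_hev (d : ℕ) (a b c e : K) (p q : K[X]) (Z : K × K) :
    hev d (cw d a b c e p q) (a * Z.1 + b * Z.2, c * Z.1 + e * Z.2) =
      (a * e - b * c) ^ d * (c * hev d p Z + e * hev d q Z) := by
  unfold cw
  rw [hev_hc, hev_lin]
  have e1 : ((e * (a * Z.1 + b * Z.2, c * Z.1 + e * Z.2).1 +
      -b * (a * Z.1 + b * Z.2, c * Z.1 + e * Z.2).2,
      -c * (a * Z.1 + b * Z.2, c * Z.1 + e * Z.2).1 +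
      a * (a * Z.1 + b * Z.2, c * Z.1 + e * Z.2).2) : K × K) = (a * e - b * c) • Z := by
    ext
    · simp only [Prod.smul_fst, smul_eq_mul]
      ring
    · simp only [Prod.smul_snd, smul_eq_mul]
      ring
  rw [e1, hev_smul, hev_smul]
  ring

lemma cu_degree (d : ℕ) (a b c e : K) (p q : K[X]) : (cu d a b c e p q).natDegree ≤ d := by
  have := hc_degree d 1 (C a * p + C b * q) _ _ (lin_deg e (-b)) (lin_deg (-c) a)
  rwa [mul_one] at this

lemma cw_degree (d : ℕ) (a b c e : K) (p q : K[X]) : (cw d a b c e p q).natDegree ≤ d := by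
  have := hc_degree d 1 (C c * p + C e * q) _ _ (lin_deg e (-b)) (lin_deg (-c) a)
  rwa [mul_one] at this

/-- linear combinations -/
lemma lin_zero {L : Type*} [Field L] {a b c e P Q : L} (hdet : a * e - b * c ≠ 0)
    (h1 : a * P + b * Q = 0) (h2 : c * P + e * Q = 0) : P = 0 ∧ Q = 0 := by
  constructor
  · have h : (a * e - b * c) * P = 0 := by linear_combination e * h1 - b * h2
    exact (mul_eq_zero.mp h).resolve_left hdet
  · have h : (a * e - b * c) * Q = 0 := by linear_combination a * h2 - c * h1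
    exact (mul_eq_zero.mp h).resolve_left hdet

lemma cj_coprime (d : ℕ) (a b c e : K) (hdet : a * e - b * c ≠ 0) (p q : K[X])
    (hp : p.natDegree ≤ d) (hq : q.natDegree ≤ d)
    (hco : IsCoprime p q) (hlead : p.coeff d ≠ 0 ∨ q.coeff d ≠ 0) :
    IsCoprime (cu d a b c e p q) (cw d a b c e p q) := by
  refine (isCoprime_iff_aeval_ne_zero_of_isAlgClosed (k := K) (AlgebraicClosure K) _ _).mpr ?_
  intro y
  by_contra hcon
  push Not at hcon
  obtain ⟨h1, h2⟩ := hcon
  unfold cu at h1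
  unfold cw at h2
  rw [hc_aeval] at h1 h2
  set φ := algebraMap K (AlgebraicClosure K) with hφ
  rw [Polynomial.map_add, Polynomial.map_mul, Polynomial.map_mul, map_C, map_C, hev_lin] at h1 h2
  have hdet' : φ a * φ e - φ b * φ c ≠ 0 := by
    rw [← map_mul, ← map_mul, ← map_sub]
    exact (map_ne_zero φ).mpr hdet
  obtain ⟨g1, g2⟩ := lin_zero hdet' h1 h2
  refine both_ne d (p.map φ) (q.map φ) (natDegree_map_le.trans hp) (natDegree_map_le.trans hq)
    (hco.map (mapRingHom φ)) ?_ _ ?_ g1 g2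
  · simp only [coeff_map, ne_eq, map_eq_zero]
    exact hlead
  · intro h0
    have e1 := congrArg Prod.fst h0
    have e2 := congrArg Prod.snd h0
    simp only [map_add, map_mul, aeval_C, aeval_X, Prod.fst_zero, Prod.snd_zero, map_neg] at e1 e2
    apply hdet'
    linear_combination (φ e) * e2 + (φ c) * e1

lemma cj_max (d : ℕ) (a b c e : K) (hdet : a * e - b * c ≠ 0) (p q : K[X])
    (hp : p.natDegree ≤ d) (hq : q.natDegree ≤ d)
    (hco : IsCoprime p q) (hlead : p.coeff d ≠ 0 ∨ q.coeff d ≠ 0) :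
    max (cu d a b c e p q).natDegree (cw d a b c e p q).natDegree = d := by
  apply le_antisymm (max_le (cu_degree _ _ _ _ _ _ _) (cw_degree _ _ _ _ _ _ _))
  by_contra hlt
  push Not at hlt
  rw [max_lt_iff] at hlt
  have h1 := coeff_eq_zero_of_natDegree_lt hlt.1
  have h2 := coeff_eq_zero_of_natDegree_lt hlt.2
  have g1 := hc_coeff d 1 (C a * p + C b * q) _ _ (lin_deg e (-b)) (lin_deg (-c) a)
  have g2 := hc_coeff d 1 (C c * p + C e * q) _ _ (lin_deg e (-b)) (lin_deg (-c) a)
  rw [mul_one] at g1 g2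
  unfold cu at h1
  unfold cw at h2
  rw [h1, hev_lin] at g1
  rw [h2, hev_lin] at g2
  obtain ⟨i1, i2⟩ := lin_zero hdet g1.symm g2.symm
  refine both_ne d p q hp hq hco hlead _ ?_ i1 i2
  intro h0
  have e1 := congrArg Prod.fst h0
  have e2 := congrArg Prod.snd h0
  have e3 : (C e * X + C (-b) : K[X]).coeff 1 = e := by
    rw [coeff_add, coeff_C_mul, coeff_X_one, coeff_C]
    simp
  have e4 : (C (-c) * X + C a : K[X]).coeff 1 = -c := by
    rw [coeff_add, coeff_C_mul, coeff_X_one, coeff_C]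
    simp
  rw [e3, e4] at h0
  have e5 : e = 0 := congrArg Prod.fst h0
  have e6 : -c = 0 := congrArg Prod.snd h0
  apply hdet
  rw [e5, neg_eq_zero.mp e6]
  ring

lemma cj_id [Infinite K] (d : ℕ) (a b c e : K) (p q : K[X])
    (hp : p.natDegree ≤ d) (hq : q.natDegree ≤ d) :
    (C a * p + C b * q) * hc d (cw d a b c e p q) (C a * X + C b) (C c * X + C e) =
      (C c * p + C e * q) * hc d (cu d a b c e p q) (C a * X + C b) (C c * X + C e) := by
  apply Polynomial.funext
  intro x
  rw [eval_mul, eval_mul, hc_eval, hc_eval]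
  have e1 : ((C a * X + C b : K[X]).eval x, (C c * X + C e : K[X]).eval x) =
      (a * ((x, 1) : K × K).1 + b * ((x, 1) : K × K).2,
        c * ((x, 1) : K × K).1 + e * ((x, 1) : K × K).2) := by
    simp
  rw [e1, cu_hev, cw_hev, hev_one d p hp, hev_one d q hq]
  simp only [eval_add, eval_mul, eval_C]
  ring

/-- the Möbius map in homogeneous coordinates -/
noncomputable def mo (a b c e : K) (z : Option K) : K :=
  (a * (pt z).1 + b * (pt z).2) / (c * (pt z).1 + e * (pt z).2)

lemma pt_ne (z : Option K) : pt z ≠ 0 := by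
  rcases z with _ | x
  · intro h
    exact one_ne_zero (congrArg Prod.fst h)
  · intro h
    exact one_ne_zero (congrArg Prod.snd h)

lemma pt_rat (d : ℕ) (p q : K[X]) (hp : p.natDegree ≤ d) (hq : q.natDegree ≤ d)
    (hco : IsCoprime p q) (hlead : p.coeff d ≠ 0 ∨ q.coeff d ≠ 0) (z : Option K) :
    ∃ l : K, l ≠ 0 ∧ hev d p (pt z) = l * (pt (ratP1 p q d z)).1 ∧
      hev d q (pt z) = l * (pt (ratP1 p q d z)).2 := by
  have hne := both_ne d p q hp hq hco hlead (pt z) (pt_ne z)
  rcases z with _ | x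
  · by_cases h : q.coeff d = 0
    · rw [ratP1_none0 p q d h]
      have e : hev d q (pt none) = 0 := by
        show hev d q (1, 0) = 0
        rw [hev_zero, h, zero_mul]
      refine ⟨hev d p (pt none), fun h0 => hne h0 e, ?_, ?_⟩
      · show _ = _ * (1 : K)
        rw [mul_one]
      · rw [e]
        show _ = _ * (0 : K)
        rw [mul_zero]
    · rw [ratP1_none p q d h]
      refine ⟨q.coeff d, h, ?_, ?_⟩
      · show hev d p (1, 0) = _ * (p.coeff d / q.coeff d)
        rw [hev_zero]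
        field_simp
        simp
      · show hev d q (1, 0) = _ * 1
        rw [hev_zero]
        simp
  · by_cases h : q.eval x = 0
    · rw [ratP1_some0 p q d x h]
      have e : hev d q (pt (some x)) = 0 := by
        show hev d q (x, 1) = 0
        rw [hev_one d q hq, h]
      refine ⟨hev d p (pt (some x)), fun h0 => hne h0 e, ?_, ?_⟩
      · show _ = _ * (1 : K)
        rw [mul_one]
      · rw [e]
        show _ = _ * (0 : K)
        rw [mul_zero]
    · rw [ratP1_some p q d x h]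
      refine ⟨q.eval x, h, ?_, ?_⟩
      · show hev d p (x, 1) = _ * (p.eval x / q.eval x)
        rw [hev_one d p hp]
        field_simp
      · show hev d q (x, 1) = _ * 1
        rw [hev_one d q hq, mul_one]

lemma mo_val (d : ℕ) (a b c e : K) (hdet : a * e - b * c ≠ 0) (p q : K[X])
    (hp : p.natDegree ≤ d) (hq : q.natDegree ≤ d)
    (hco : IsCoprime p q) (hlead : p.coeff d ≠ 0 ∨ q.coeff d ≠ 0) (z : Option K)
    (hz : c * (pt z).1 + e * (pt z).2 ≠ 0)
    (hfz : c * (pt (ratP1 p q d z)).1 + e * (pt (ratP1 p q d z)).2 ≠ 0) :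
    (cw d a b c e p q).eval (mo a b c e z) ≠ 0 ∧
      (cu d a b c e p q).eval (mo a b c e z) / (cw d a b c e p q).eval (mo a b c e z) =
        mo a b c e (ratP1 p q d z) := by
  obtain ⟨l, hl, h1, h2⟩ := pt_rat d p q hp hq hco hlead z
  set W0 := c * (pt z).1 + e * (pt z).2 with hW0
  have e1 : ((mo a b c e z, 1) : K × K) =
      W0⁻¹ • ((a * (pt z).1 + b * (pt z).2, c * (pt z).1 + e * (pt z).2) : K × K) := by
    ext
    · simp only [mo, Prod.smul_fst, smul_eq_mul]
      rw [← hW0, div_eq_inv_mul]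
    · simp only [Prod.smul_snd, smul_eq_mul]
      rw [← hW0, inv_mul_cancel₀ hz]
  have e2 : (cu d a b c e p q).eval (mo a b c e z) = W0⁻¹ ^ d * ((a * e - b * c) ^ d *
      (l * (a * (pt (ratP1 p q d z)).1 + b * (pt (ratP1 p q d z)).2))) := by
    rw [← hev_one d _ (cu_degree d a b c e p q), e1, hev_smul, cu_hev, h1, h2]
    ring
  have e3 : (cw d a b c e p q).eval (mo a b c e z) = W0⁻¹ ^ d * ((a * e - b * c) ^ d *
      (l * (c * (pt (ratP1 p q d z)).1 + e * (pt (ratP1 p q d z)).2))) := by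
    rw [← hev_one d _ (cw_degree d a b c e p q), e1, hev_smul, cw_hev, h1, h2]
    ring
  have f1 : W0⁻¹ ^ d ≠ 0 := pow_ne_zero _ (inv_ne_zero hz)
  have f2 : (a * e - b * c) ^ d ≠ 0 := pow_ne_zero _ hdet
  refine ⟨?_, ?_⟩
  · rw [e3]
    exact mul_ne_zero f1 (mul_ne_zero f2 (mul_ne_zero hl hfz))
  · rw [e2, e3, mul_div_mul_left _ _ f1, mul_div_mul_left _ _ f2, mul_div_mul_left _ _ hl]
    rfl

lemma wedge_pt {z z' : Option K} : wedge (pt z) (pt z') = 0 ↔ z = z' := by
  rcases z with _ | x <;> rcases z' with _ | y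
  · simp [wedge, pt]
  · simp [wedge, pt]
  · simp [wedge, pt]
  · simp [wedge, pt, sub_eq_zero]

lemma mo_inj {a b c e : K} (hdet : a * e - b * c ≠ 0) {z z' : Option K}
    (hz : c * (pt z).1 + e * (pt z).2 ≠ 0) (hz' : c * (pt z').1 + e * (pt z').2 ≠ 0)
    (h : mo a b c e z = mo a b c e z') : z = z' := by
  unfold mo at h
  rw [div_eq_div_iff hz hz'] at h
  apply wedge_pt.mp
  have h1 : (a * e - b * c) * wedge (pt z) (pt z') = 0 := by
    unfold wedge
    linear_combination h
  exact (mul_eq_zero.mp h1).resolve_left hdet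

/-- the cross ratio as a Möbius map -/
lemma xr_mo (z0 z1 z2 z : Option K) : xr z0 z1 z2 z =
    mo ((pt z0).2 * wedge (pt z1) (pt z2)) (-((pt z0).1 * wedge (pt z1) (pt z2)))
      ((pt z2).2 * wedge (pt z1) (pt z0)) (-((pt z2).1 * wedge (pt z1) (pt z0))) z := by
  unfold xr mo
  congr 1
  · simp only [wedge]
    ring
  · simp only [wedge]
    ring

lemma xr_det {z0 z1 z2 : Option K} (h01 : z0 ≠ z1) (h02 : z0 ≠ z2) (h12 : z1 ≠ z2) :
    ((pt z0).2 * wedge (pt z1) (pt z2)) * (-((pt z2).1 * wedge (pt z1) (pt z0))) -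
      (-((pt z0).1 * wedge (pt z1) (pt z2))) * ((pt z2).2 * wedge (pt z1) (pt z0)) ≠ 0 := by
  have h1 : wedge (pt z1) (pt z2) ≠ 0 := fun h => h12 (wedge_pt.mp h)
  have h2 : wedge (pt z1) (pt z0) ≠ 0 := fun h => h01 (wedge_pt.mp h).symm
  have h3 : wedge (pt z0) (pt z2) ≠ 0 := fun h => h02 (wedge_pt.mp h)
  have h4 : ((pt z0).2 * wedge (pt z1) (pt z2)) * (-((pt z2).1 * wedge (pt z1) (pt z0))) -
      (-((pt z0).1 * wedge (pt z1) (pt z2))) * ((pt z2).2 * wedge (pt z1) (pt z0)) =
      wedge (pt z1) (pt z2) * wedge (pt z1) (pt z0) * wedge (pt z0) (pt z2) := by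
    simp only [wedge]
    ring
  rw [h4]
  exact mul_ne_zero (mul_ne_zero h1 h2) h3

lemma xr_den {z0 z1 z2 z : Option K} (h01 : z0 ≠ z1) (h : z ≠ z2) :
    ((pt z2).2 * wedge (pt z1) (pt z0)) * (pt z).1 +
      (-((pt z2).1 * wedge (pt z1) (pt z0))) * (pt z).2 ≠ 0 := by
  have h2 : wedge (pt z1) (pt z0) ≠ 0 := fun h => h01 (wedge_pt.mp h).symm
  have h3 : wedge (pt z) (pt z2) ≠ 0 := fun h' => h (wedge_pt.mp h')
  have h4 : ((pt z2).2 * wedge (pt z1) (pt z0)) * (pt z).1 +
      (-((pt z2).1 * wedge (pt z1) (pt z0))) * (pt z).2 =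
      wedge (pt z1) (pt z0) * wedge (pt z) (pt z2) := by
    simp only [wedge]
    ring
  rw [h4]
  exact mul_ne_zero h2 h3

end

end Pool.Agent.E8helper65.HS
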