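import Pool.Agent.W277.UH.G1
import Pool.Agent.W277.UH.H9

/-!
# Heights of cross ratios of preperiodic points: the main inequality (after W277.UH.G2, TH450.FH.Glob)
-/

namespace Pool.Agent.E8helper65.HS

open Pool.Agent.W277.UB Pool.Agent.W277.UG Pool.Agent.W277.UH Finset Polynomial

universe u v w

/-- the cross ratio -/
noncomputable def cr {K : Type*} [Field K] (x0 x1 x2 x : K) : K :=
  ((x - x0) * (x1 - x2)) / ((x - x2) * (x1 - x0))

/-- **The main inequality.** -/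
theorem core (d : ℕ) (hd : 2 ≤ d) : ∃ N₁ : ℕ,
    ∀ (k : Type v) (K : Type u) [Field k] [CharZero k] [Field K] [Algebra k K] [DecidableEq K]
    (Q : PlaceData.{w} k K) (p q : Polynomial K), p.natDegree ≤ d → q.natDegree = d → IsCoprime p q →
    ∀ P : Finset K, (∀ z ∈ P, q.eval z ≠ 0 ∧ p.eval z / q.eval z ∈ P) →
    ¬ ConjConst k p q d → N₁ ≤ P.card →
    ∀ x0 ∈ P, ∀ x1 ∈ P, ∀ x2 ∈ P, ∀ x ∈ P, x ≠ x0 → x1 ≠ x2 → x ≠ x2 → x1 ≠ x0 →
    ∀ S' : Finset Q.Pl, ∑ v ∈ S', (Q.wt v : ℝ) * Q.pole v (cr x0 x1 x2 x) ≤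
      384 * (d : ℝ) * (d + 1) * Q.lossT := by
  classical
  obtain ⟨N₀, M, hglob⟩ := global_boundU.{u, v, w} d hd
  refine ⟨N₀ + 4 * ((M + 3) * (d + 1)) + (3 * d + 4) + q₀ d, ?_⟩
  intro k K _ _ _ _ _ Q p q hp hq hco P hP hiso hN
  have hdR : (2 : ℝ) ≤ d := by exact_mod_cast hd
  have hqP : q₀ d < P.card := by omega
  have hres := res_ne d p q hp hq (by omega) hco
  set r := resultant q p d d with hr
  set fz : K → K := fun z => p.eval z / q.eval z with hfz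
  have hf : ∀ z ∈ P, fz z ∈ P := fun z hz => (hP z hz).2
  set E : Finset K := insert r (P.image q.eval ∪ P.offDiag.image fun w => w.1 - w.2) with hE
  set S : Finset Q.Pl := Q.lossS ∪ E.biUnion (fun x => if h : x ≠ 0 then (Q.fin x h).toFinset
    else ∅) with hS
  have hSE : ∀ v, v ∉ S → ∀ x ∈ E, x ≠ 0 → Q.ord v x = 0 := by
    intro v hv x hx hx0
    by_contra h
    apply hv
    rw [hS, Finset.mem_union]
    right
    rw [Finset.mem_biUnion]
    refine ⟨x, hx, ?_⟩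
    rw [dif_pos hx0, Set.Finite.mem_toFinset]
    exact h
  have hrE : r ∈ E := Finset.mem_insert_self _ _
  have hqE : ∀ z ∈ P, q.eval z ∈ E := fun z hz => Finset.mem_insert_of_mem
    (Finset.mem_union_left _ (Finset.mem_image_of_mem _ hz))
  have hxE : ∀ x ∈ P, ∀ y ∈ P, x ≠ y → x - y ∈ E := fun x hx y hy hxy =>
    Finset.mem_insert_of_mem (Finset.mem_union_right _ (Finset.mem_image.mpr
      ⟨(x, y), Finset.mem_offDiag.mpr ⟨hx, hy, hxy⟩, rfl⟩))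
  choose a ha using fun v => exists_a d hd P fz hf (fun z => (Q.ord v (q.eval z) : ℝ))
  set ρ : Q.Pl → ℝ := fun v => (Q.ord v r : ℝ) / (d * ((d : ℝ) - 1)) with hρ
  have hL : ∀ v, Nonempty (LD Q v d P (a v) (ρ v)) := fun v =>
    local_all' Q v d hd p q hp hq hco P hP (a v) (ha v) (ρ v) hres rfl
  let L : ∀ v, LD Q v d P (a v) (ρ v) := fun v => Classical.choice (hL v)
  have hS1 : ∀ v, v ∉ S → ∀ x ∈ P, ∀ y ∈ P, x ≠ y → Q.ord v (x - y) = 0 :=
    fun v hv x hx y hy hxy => hSE v hv _ (hxE x hx y hy hxy) (sub_ne_zero.mpr hxy)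
  have hS2 : ∀ v, v ∉ S → (∀ x ∈ P, a v x = 0) ∧ ρ v = 0 := by
    intro v hv
    constructor
    · apply stable_zero d hd P fz hf
      intro z hz
      rw [ha v z hz, hSE v hv _ (hqE z hz) (hP z hz).1]
      simp
    · simp only [hρ]
      rw [hSE v hv r hrE hres]
      simp
  have hS3 : Q.lossS ⊆ S := Finset.subset_union_left
  have hwa : ∀ x ∈ P, ∑ v ∈ S, (Q.wt v : ℝ) * a v x = 0 := by
    apply stable_zero d hd P fz hf (fun x => ∑ v ∈ S, (Q.wt v : ℝ) * a v x)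
    intro z hz
    have h1 := prod_zero Q S (q.eval z) (hP z hz).1
      (fun v hv => hSE v hv _ (hqE z hz) (hP z hz).1)
    have h2 : ∑ v ∈ S, (Q.wt v : ℝ) * (Q.ord v (q.eval z) : ℝ) = 0 := by exact_mod_cast h1
    have h3 : (d : ℝ) * ∑ v ∈ S, (Q.wt v : ℝ) * a v z =
        ∑ v ∈ S, (Q.wt v : ℝ) * (Q.ord v (q.eval z) : ℝ) +
          ∑ v ∈ S, (Q.wt v : ℝ) * a v (fz z) := by
      rw [Finset.mul_sum, ← Finset.sum_add_distrib]
      apply Finset.sum_congr rfl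
      intro v _
      have := ha v z hz
      linear_combination (Q.wt v : ℝ) * this
    rw [h3, h2, zero_add]
  have hwρ : ∑ v ∈ S, (Q.wt v : ℝ) * ρ v = 0 := by
    have h1 := prod_zero Q S r hres (fun v hv => hSE v hv _ hrE hres)
    have h2 : ∑ v ∈ S, (Q.wt v : ℝ) * (Q.ord v r : ℝ) = 0 := by exact_mod_cast h1
    have h3 : ∑ v ∈ S, (Q.wt v : ℝ) * ρ v =
        (∑ v ∈ S, (Q.wt v : ℝ) * (Q.ord v r : ℝ)) / (d * ((d : ℝ) - 1)) := by
      rw [Finset.sum_div]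
      apply Finset.sum_congr rfl
      intro v _
      simp only [hρ]
      ring
    rw [h3, h2, zero_div]
  have hwt : ∀ v, (0 : ℝ) ≤ Q.wt v := fun v => by exact_mod_cast Q.wt_nonneg v
  have hwt1 : ∀ v, (1 : ℝ) ≤ Q.wt v := fun v => by exact_mod_cast Q.wt_one v
  have hpair : ∀ x ∈ P, ∀ y ∈ P, x ≠ y → ∑ v ∈ S, (Q.wt v : ℝ) * GG Q v (a v) (ρ v) x y = 0 := by
    intro x hx y hy hxy
    have h1 := prod_zero Q S (x - y) (sub_ne_zero.mpr hxy) fun v hv => hS1 v hv x hx y hy hxy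
    have h2 : ∑ v ∈ S, (Q.wt v : ℝ) * (Q.ord v (x - y) : ℝ) = 0 := by exact_mod_cast h1
    have h3 : ∀ v, (Q.wt v : ℝ) * GG Q v (a v) (ρ v) x y = (Q.wt v : ℝ) * (Q.ord v (x - y) : ℝ) -
        (Q.wt v : ℝ) * a v x - (Q.wt v : ℝ) * a v y + (Q.wt v : ℝ) * ρ v := by
      intro v
      unfold GG
      ring
    simp_rw [h3]
    rw [Finset.sum_add_distrib, Finset.sum_sub_distrib, Finset.sum_sub_distrib, h2, hwa x hx,
      hwa y hy, hwρ]
    ring
  have hGG0 : ∀ v, v ∉ S → ∀ x ∈ P, ∀ y ∈ P, x ≠ y → GG Q v (a v) (ρ v) x y = 0 := by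
    intro v hv x hx y hy hxy
    unfold GG
    rw [hS1 v hv x hx y hy hxy, (hS2 v hv).1 x hx, (hS2 v hv).1 y hy, (hS2 v hv).2]
    simp
  have hgood : ∀ v, (L v).R = 0 → ∀ x ∈ P, ∀ y ∈ P, x ≠ y → 0 ≤ GG Q v (a v) (ρ v) x y := by
    intro v hv x hx y hy hxy
    rw [(L v).GG_good hv hx hy hxy]
    exact Nat.cast_nonneg _
  -- the global inequality
  have hna : ∀ T ⊆ P, ∀ α β γ : K, (∀ x ∈ T, Q.D x = α * x ^ 2 + β * x + γ) →
      P.card < (d + 1) * (P \ T).card + (3 * d + 4) := by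
    intro T hT α β γ hq2
    by_contra hcon
    push Not at hcon
    exact hiso (conj_of_cross p q d hp hq hd hco P hP T hT
      (fun x0 h0 x1 h1 x2 h2 x hx _ _ _ _ _ => cross_of_quad Q T α β γ hq2 x0 x1 x2 x h0 h1 h2 hx)
      hcon)
  have hH := hglob k K Q S P a ρ L (by omega) hS1 hS2 hS3 hwa hwρ (by
    intro m hm hmM b _ F hF
    apply functional_countR Q p q d hd hp hq hco P hP m hna _ b F hF
    have h1 : (m + 3) * (d + 1) ≤ (M + 3) * (d + 1) := Nat.mul_le_mul_right _ (by omega)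
    omega)
  -- negative and positive parts
  have hd1 : (1 : ℝ) ≤ (d : ℝ) - 1 := by linarith
  have hneg : ∀ v, ∀ x ∈ P, ∀ y ∈ P, x ≠ y → -(2 * ((L v).R : ℝ)) ≤ GG Q v (a v) (ρ v) x y := by
    intro v x hx y hy hxy
    rw [(L v).GG_eq hx hy hxy]
    have h1 := (L v).hA x hx
    have h2 := (L v).hA y hy
    have hR0 : (0 : ℝ) ≤ (L v).R := Nat.cast_nonneg _
    have h3 : ((L v).R : ℝ) / ((d : ℝ) - 1) ≤ (L v).R := by
      rw [div_le_iff₀ (by linarith)]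
      nlinarith
    have h4 : 0 ≤ ((L v).R : ℝ) / (d * ((d : ℝ) - 1)) := by
      apply div_nonneg hR0
      apply mul_nonneg <;> linarith
    have h5 : (0 : ℝ) ≤ ((L v).o x y : ℝ) := Nat.cast_nonneg _
    linarith [h1.2, h2.2]
  have hnp : ∀ x ∈ P, ∀ y ∈ P, x ≠ y →
      (∑ v ∈ S, (Q.wt v : ℝ) * max (-GG Q v (a v) (ρ v) x y) 0 ≤
        2 * ∑ v ∈ S, (Q.wt v : ℝ) * (L v).R) ∧
      (∑ v ∈ S, (Q.wt v : ℝ) * max (GG Q v (a v) (ρ v) x y) 0 ≤
        2 * ∑ v ∈ S, (Q.wt v : ℝ) * (L v).R) := by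
    intro x hx y hy hxy
    have h1 : ∑ v ∈ S, (Q.wt v : ℝ) * max (-GG Q v (a v) (ρ v) x y) 0 ≤
        2 * ∑ v ∈ S, (Q.wt v : ℝ) * (L v).R := by
      rw [Finset.mul_sum]
      apply Finset.sum_le_sum
      intro v _
      have h2 : max (-GG Q v (a v) (ρ v) x y) 0 ≤ 2 * ((L v).R : ℝ) := by
        apply max_le
        · linarith [hneg v x hx y hy hxy]
        · positivity
      calc (Q.wt v : ℝ) * max (-GG Q v (a v) (ρ v) x y) 0 ≤ (Q.wt v : ℝ) * (2 * ((L v).R : ℝ)) :=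
            mul_le_mul_of_nonneg_left h2 (hwt v)
        _ = 2 * ((Q.wt v : ℝ) * (L v).R) := by ring
    refine ⟨h1, ?_⟩
    have h3 : ∑ v ∈ S, (Q.wt v : ℝ) * max (GG Q v (a v) (ρ v) x y) 0 =
        ∑ v ∈ S, (Q.wt v : ℝ) * GG Q v (a v) (ρ v) x y +
          ∑ v ∈ S, (Q.wt v : ℝ) * max (-GG Q v (a v) (ρ v) x y) 0 := by
      rw [← Finset.sum_add_distrib]
      apply Finset.sum_congr rfl
      intro v _
      rw [← mul_add]
      congr 1
      rcases le_total 0 (GG Q v (a v) (ρ v) x y) with h | h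
      · rw [max_eq_left h, max_eq_right (by linarith)]
        ring
      · rw [max_eq_right h, max_eq_left (by linarith)]
        ring
    rw [h3, hpair x hx y hy hxy, zero_add]
    exact h1
  intro x0 h0 x1 h1 x2 h2 x hx nx0 n12 nx2 n10 S'
  have m1 := sub_ne_zero.mpr nx0
  have m2 := sub_ne_zero.mpr n12
  have m3 := sub_ne_zero.mpr nx2
  have m4 := sub_ne_zero.mpr n10
  have hcr0 : cr x0 x1 x2 x ≠ 0 := div_ne_zero (mul_ne_zero m1 m2) (mul_ne_zero m3 m4)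
  have hordcr : ∀ v, Q.ord v (cr x0 x1 x2 x) = Q.ord v (x - x0) + Q.ord v (x1 - x2) -
      (Q.ord v (x - x2) + Q.ord v (x1 - x0)) := by
    intro v
    unfold cr
    rw [PlaceData.ord_div (mul_ne_zero m1 m2) (mul_ne_zero m3 m4), Q.ord_mul v _ _ m1 m2,
      Q.ord_mul v _ _ m3 m4]
  have hpole : ∀ v, (Q.pole v (cr x0 x1 x2 x) : ℝ) ≤
      max (-GG Q v (a v) (ρ v) x x0) 0 + max (-GG Q v (a v) (ρ v) x1 x2) 0 +
      max (GG Q v (a v) (ρ v) x x2) 0 + max (GG Q v (a v) (ρ v) x1 x0) 0 := by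
    intro v
    have e1 : -(Q.ord v (cr x0 x1 x2 x) : ℝ) = -GG Q v (a v) (ρ v) x x0 -
        GG Q v (a v) (ρ v) x1 x2 + GG Q v (a v) (ρ v) x x2 + GG Q v (a v) (ρ v) x1 x0 := by
      rw [hordcr v]
      push_cast
      unfold GG
      ring
    rw [PlaceData.pole_of_ne hcr0]
    push_cast
    apply max_le
    · positivity
    · rw [e1]
      have f1 := le_max_left (-GG Q v (a v) (ρ v) x x0) 0
      have f2 := le_max_left (-GG Q v (a v) (ρ v) x1 x2) 0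
      have f3 := le_max_left (GG Q v (a v) (ρ v) x x2) 0
      have f4 := le_max_left (GG Q v (a v) (ρ v) x1 x0) 0
      linarith
  have hout : ∀ v, v ∉ S → Q.pole v (cr x0 x1 x2 x) = 0 := by
    intro v hv
    rw [PlaceData.pole_of_ne hcr0, hordcr v, hS1 v hv x hx x0 h0 nx0, hS1 v hv x1 h1 x2 h2 n12,
      hS1 v hv x hx x2 h2 nx2, hS1 v hv x1 h1 x0 h0 n10]
    simp
  have hsum : ∑ v ∈ S', (Q.wt v : ℝ) * Q.pole v (cr x0 x1 x2 x) ≤
      ∑ v ∈ S, (Q.wt v : ℝ) * Q.pole v (cr x0 x1 x2 x) := by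
    have g1 : ∑ v ∈ S', (Q.wt v : ℝ) * Q.pole v (cr x0 x1 x2 x) =
        ∑ v ∈ S' ∩ S, (Q.wt v : ℝ) * Q.pole v (cr x0 x1 x2 x) := by
      symm
      apply Finset.sum_subset Finset.inter_subset_left
      intro v hv hv2
      have : v ∉ S := fun h => hv2 (Finset.mem_inter.mpr ⟨hv, h⟩)
      rw [hout v this]
      simp
    rw [g1]
    apply Finset.sum_le_sum_of_subset_of_nonneg Finset.inter_subset_right
    intro v _ _
    have := PlaceData.pole_nonneg v (cr x0 x1 x2 x)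
    have h5 : (0 : ℝ) ≤ Q.pole v (cr x0 x1 x2 x) := by exact_mod_cast this
    exact mul_nonneg (hwt v) h5
  refine hsum.trans ?_
  have g2 : ∑ v ∈ S, (Q.wt v : ℝ) * Q.pole v (cr x0 x1 x2 x) ≤
      ∑ v ∈ S, (Q.wt v : ℝ) * max (-GG Q v (a v) (ρ v) x x0) 0 +
      ∑ v ∈ S, (Q.wt v : ℝ) * max (-GG Q v (a v) (ρ v) x1 x2) 0 +
      ∑ v ∈ S, (Q.wt v : ℝ) * max (GG Q v (a v) (ρ v) x x2) 0 +
      ∑ v ∈ S, (Q.wt v : ℝ) * max (GG Q v (a v) (ρ v) x1 x0) 0 := by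
    rw [← Finset.sum_add_distrib, ← Finset.sum_add_distrib, ← Finset.sum_add_distrib]
    apply Finset.sum_le_sum
    intro v _
    rw [← mul_add, ← mul_add, ← mul_add]
    exact mul_le_mul_of_nonneg_left (hpole v) (hwt v)
  have g3 := (hnp x hx x0 h0 nx0).1
  have g4 := (hnp x1 h1 x2 h2 n12).1
  have g5 := (hnp x hx x2 h2 nx2).2
  have g6 := (hnp x1 h1 x0 h0 n10).2
  linarith

end Pool.Agent.E8helper65.HS
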