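import Pool.Agent.E8helper65.HS.Stm
import Pool.Agent.TH450.FH.X5

/-!
# Heights of cross ratios of preperiodic points: the degree of a function and its poles
-/

set_option autoImplicit false

namespace Pool.Agent.E8helper65.HS

open Polynomial Pool.Agent.W277.UB Pool.Agent.W277.UD Finset Pool.Agent.TH450.FH

universe u v w

section
variable (k : Type v) (K : Type u) [Field k] [CharZero k] [Field K] [Algebra k K]
  [Algebra (RatFunc k) K] [IsScalarTower k (RatFunc k) K] [FiniteDimensional (RatFunc k) K]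

theorem deg_le (hDEG : S_DEG.{u, v}) (D0 : Derivation k K K)
    (c1 : ChartX.{w} k k[X] (RatFunc k) K D0) (c2 : ChartX.{w} k (InfRing k) (RatFunc k) K D0)
    (a : K) (ha : Transcendental k a) (S1 : Finset c1.Pl) (S2 : Finset c2.Pl)
    (h1 : ∀ v, v ∉ S1 → 0 ≤ c1.ord v a) (h2 : ∀ v, v ∉ S2 → 0 ≤ c2.ord v a) :
    (Module.finrank (IntermediateField.adjoin k {a}) K : ℤ) ≤
      ∑ v ∈ S1, (algebraMap k[X] (RatFunc k) (c1.g v)).intDegree * max 0 (-c1.ord v a) +
      ∑ v ∈ S2, -(algebraMap (InfRing k) (RatFunc k) (c2.g v)).intDegree *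
        max 0 (-c2.ord v a) := by
  classical
  have ha0 : a ≠ 0 := by
    rintro rfl
    exact ha (isAlgebraic_zero)
  set m1 : c1.Pl → ℕ := fun v => (max 0 (-c1.ord v a)).toNat with hm1
  set m2 : c2.Pl → ℕ := fun v => (max 0 (-c2.ord v a)).toNat with hm2
  have hm1' : ∀ v, (m1 v : ℤ) = max 0 (-c1.ord v a) := fun v =>
    Int.toNat_of_nonneg (le_max_left _ _)
  have hm2' : ∀ v, (m2 v : ℤ) = max 0 (-c2.ord v a) := fun v =>
    Int.toNat_of_nonneg (le_max_left _ _)
  have hz1 : ∀ v, v ∉ S1 → m1 v = 0 := by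
    intro v hv
    have := hm1' v
    rw [max_eq_left (by linarith [h1 v hv])] at this
    exact_mod_cast this
  have hz2 : ∀ v, v ∉ S2 → m2 v = 0 := by
    intro v hv
    have := hm2' v
    rw [max_eq_left (by linarith [h2 v hv])] at this
    exact_mod_cast this
  set W : k[X] := ∏ v ∈ S1, c1.g v ^ m1 v with hW
  have hW0 : W ≠ 0 := Finset.prod_ne_zero_iff.mpr fun v _ => pow_ne_zero _ (c1.g_ne v)
  have hwt1 : ∀ v, 0 ≤ (algebraMap k[X] (RatFunc k) (c1.g v)).intDegree := fun v =>
    zero_le_one.trans (pos_poly k _ (c1.g_ne v) (c1.g_nu v))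
  have hwt2 : ∀ v, 0 ≤ -(algebraMap (InfRing k) (RatFunc k) (c2.g v)).intDegree := fun v =>
    zero_le_one.trans (pos_inf k _ (c2.g_ne v) (c2.g_nu v))
  set H1 : ℤ := ∑ v ∈ S1, (algebraMap k[X] (RatFunc k) (c1.g v)).intDegree *
    max 0 (-c1.ord v a) with hH1
  set H2 : ℤ := ∑ v ∈ S2, -(algebraMap (InfRing k) (RatFunc k) (c2.g v)).intDegree *
        max 0 (-c2.ord v a) with hH2
  have hH1n : 0 ≤ H1 := Finset.sum_nonneg fun v _ => mul_nonneg (hwt1 v) (le_max_left _ _)
  have hH2n : 0 ≤ H2 := Finset.sum_nonneg fun v _ => mul_nonneg (hwt2 v) (le_max_left _ _)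
  have key := hDEG k K a W (H1 + H2).toNat hW0 ha ?_
  · have h3 : ((H1 + H2).toNat : ℤ) = H1 + H2 := Int.toNat_of_nonneg (by linarith)
    have h4 : (Module.finrank (IntermediateField.adjoin k {a}) K : ℤ) ≤ (H1 + H2).toNat := by
      exact_mod_cast key
    linarith
  intro c
  set x : K := a - algebraMap k K c with hx
  have hx0 : x ≠ 0 := by
    intro h
    rw [hx, sub_eq_zero] at h
    apply ha
    rw [h]
    exact isAlgebraic_algebraMap c
  have hGG : ∀ (o : K → ℤ), Val k o → GG o (-max 0 (-o a)) x := by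
    intro o ho
    apply ho.GG_sub
    · intro _
      have := le_max_right 0 (-o a)
      linarith
    · intro hc
      rw [ho.alg c (by rintro rfl; exact hc (map_zero _))]
      have := le_max_left 0 (-o a)
      linarith
  have ho1 : ∀ v, 0 ≤ c1.ord v x + m1 v := by
    intro v
    have := hGG _ (c1.val v) hx0
    rw [hm1' v]
    linarith
  have ho2 : ∀ v, 0 ≤ c2.ord v x + m2 v := by
    intro v
    have := hGG _ (c2.val v) hx0
    rw [hm2' v]
    linarith
  set T1 : Finset c1.Pl := S1 ∪ (c1.fin x hx0).toFinset with hT1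
  set T2 : Finset c2.Pl := S2 ∪ (c2.fin x hx0).toFinset with hT2
  have hT1' : ∀ v, v ∉ T1 → c1.ord v x = 0 := by
    intro v hv
    by_contra h
    exact hv (by simp [hT1, h])
  have hT2' : ∀ v, v ∉ T2 → c2.ord v x = 0 := by
    intro v hv
    by_contra h
    exact hv (by simp [hT2, h])
  obtain ⟨ε, hε, hN⟩ := c1.norm x hx0 T1 hT1'
  have hWT : W = ∏ v ∈ T1, c1.g v ^ m1 v := by
    rw [hW]
    apply Finset.prod_subset Finset.subset_union_left
    intro v _ hv
    rw [hz1 v hv, pow_zero]
  have hne : ∀ v, algebraMap k[X] (RatFunc k) (c1.g v) ≠ 0 := by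
    intro v h
    exact c1.g_ne v ((map_eq_zero_iff _ (IsFractionRing.injective k[X] (RatFunc k))).mp h)
  set q : k[X] := ε * ∏ v ∈ T1, c1.g v ^ (c1.ord v x + m1 v).toNat with hq
  have hWN : algebraMap k[X] (RatFunc k) W * Algebra.norm (RatFunc k) x =
      algebraMap k[X] (RatFunc k) q := by
    rw [hN, hWT, hq, map_mul, map_prod, map_prod, mul_left_comm, ← Finset.prod_mul_distrib]
    congr 1
    apply Finset.prod_congr rfl
    intro v _
    rw [map_pow, map_pow, ← zpow_natCast, ← zpow_natCast, ← zpow_add₀ (hne v),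
      Int.toNat_of_nonneg (ho1 v), add_comm]
  have hN0 : Algebra.norm (RatFunc k) x ≠ 0 := by
    rw [Algebra.norm_ne_zero_iff]
    exact hx0
  have hWne : algebraMap k[X] (RatFunc k) W ≠ 0 := by
    intro h
    exact hW0 ((map_eq_zero_iff _ (IsFractionRing.injective k[X] (RatFunc k))).mp h)
  refine ⟨q, ?_, hWN⟩
  have hdeg : (q.natDegree : ℤ) = (algebraMap k[X] (RatFunc k) W).intDegree +
      (Algebra.norm (RatFunc k) x).intDegree := by
    rw [← RatFunc.intDegree_mul hWne hN0, hWN, RatFunc.intDegree_polynomial]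
  have hdW : (algebraMap k[X] (RatFunc k) W).intDegree = H1 := by
    rw [hW, map_prod, AddFn_prod (addFn_poly k) _ _ fun v _ => by
      rw [map_pow]; exact pow_ne_zero _ (hne v), hH1]
    apply Finset.sum_congr rfl
    intro v _
    rw [map_pow, AddFn_pow (addFn_poly k) (hne v), hm1' v, mul_comm]
  have hdN : (Algebra.norm (RatFunc k) x).intDegree ≤ H2 := by
    have e1 := c2.toChartN.sum (addFn_inf k) x hx0 T2 hT2'
    have e2 : (Algebra.norm (RatFunc k) x).intDegree =
        ∑ v ∈ T2, -(algebraMap (InfRing k) (RatFunc k) (c2.g v)).intDegree * -c2.ord v x := by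
      have e3 : ∑ v ∈ T2, -(algebraMap (InfRing k) (RatFunc k) (c2.g v)).intDegree *
          -c2.ord v x = -∑ v ∈ T2, -(algebraMap (InfRing k) (RatFunc k) (c2.g v)).intDegree *
            c2.ord v x := by
        rw [← Finset.sum_neg_distrib]
        apply Finset.sum_congr rfl
        intro v _
        ring
      rw [e3]
      have e4 : ∑ v ∈ T2, -(algebraMap (InfRing k) (RatFunc k) (c2.g v)).intDegree *
            c2.ord v x = -(Algebra.norm (RatFunc k) x).intDegree := e1
      rw [e4, neg_neg]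
    rw [e2]
    have e5 : H2 = ∑ v ∈ T2, -(algebraMap (InfRing k) (RatFunc k) (c2.g v)).intDegree *
        (m2 v : ℤ) := by
      rw [hH2]
      rw [Finset.sum_congr rfl fun v _ => by rw [← hm2' v]]
      apply Finset.sum_subset Finset.subset_union_left
      intro v _ hv
      rw [hz2 v hv]
      simp
    rw [e5]
    apply Finset.sum_le_sum
    intro v _
    apply mul_le_mul_of_nonneg_left _ (hwt2 v)
    linarith [ho2 v]
  have h5 : (q.natDegree : ℤ) ≤ H1 + H2 := by
    rw [hdeg, hdW]
    linarith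
  omega

end

end Pool.Agent.E8helper65.HS
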