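import Pool.Agent.E8helper65.HS.Conj
import Pool.Agent.E8helper88.Mul.Glob1

/-!
# Heights of cross ratios of preperiodic points: a conjugate with coefficients of small height
-/

set_option autoImplicit false

namespace Pool.Agent.E8helper65.HS

open Pool.Agent.W277.UB Pool.Agent.W277.UG Pool.Agent.W277.UH Finset Polynomial
open Pool.Agent.E8helper88.Mul

universe u v w

section
variable {K : Type*} [Field K]

lemma comb_ne (d : ℕ) (hd : 1 ≤ d) (p q : K[X]) (hco : IsCoprime p q)
    (hlead : p.coeff d ≠ 0 ∨ q.coeff d ≠ 0) (r s : K) (hrs : r ≠ 0 ∨ s ≠ 0) :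
    C s * p + C (-r) * q ≠ 0 := by
  intro h0
  have hunit : ∀ g : K[X], IsUnit g → g.coeff d = 0 := by
    intro g hg
    apply coeff_eq_zero_of_natDegree_lt
    rw [natDegree_eq_zero_of_isUnit hg]
    omega
  have h1 : ∀ n, s * p.coeff n = r * q.coeff n := by
    intro n
    have := congrArg (fun g : K[X] => g.coeff n) h0
    simp only [coeff_add, coeff_C_mul, coeff_zero] at this
    linear_combination this
  by_cases hs : s = 0
  · have hr : r ≠ 0 := hrs.resolve_right (fun h => h hs)
    have hq : q = 0 := by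
      ext n
      have := h1 n
      rw [hs, zero_mul] at this
      rw [coeff_zero]
      exact (mul_eq_zero.mp this.symm).resolve_left hr
    rw [hq] at hco hlead
    have h2 := hunit p (isCoprime_zero_right.mp hco)
    rcases hlead with h | h
    · exact h h2
    · exact h (coeff_zero d)
  · have hp : p = C (r / s) * q := by
      ext n
      rw [coeff_C_mul]
      have := h1 n
      field_simp
      linear_combination this
    have hq : IsUnit q := by
      rw [hp] at hco
      exact isUnit_of_dvd_unit (dvd_refl q) (hco.isUnit_of_dvd' (Dvd.intro_left _ rfl) dvd_rfl)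
    have h2 := hunit q hq
    rcases hlead with h | h
    · apply h
      rw [hp, coeff_C_mul, h2, mul_zero]
    · exact h h2

/-- a point has at most `d` preimages -/
lemma fib_card (d : ℕ) (hd : 1 ≤ d) (p q : K[X]) (hp : p.natDegree ≤ d) (hq : q.natDegree ≤ d)
    (hco : IsCoprime p q) (hlead : p.coeff d ≠ 0 ∨ q.coeff d ≠ 0) (z2 : Option K)
    (T : Finset (Option K)) (hT : ∀ z ∈ T, ratP1 p q d z = z2) : T.card ≤ d := by
  classical
  set g : K[X] := C (pt z2).2 * p + C (-(pt z2).1) * q with hg
  have hg0 : g ≠ 0 := by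
    apply comb_ne d hd p q hco hlead
    by_contra hcon
    push Not at hcon
    exact pt_ne z2 (Prod.ext hcon.1 hcon.2)
  have hgd : g.natDegree ≤ d := by
    refine (natDegree_add_le _ _).trans (max_le ?_ ?_)
    · exact (natDegree_C_mul_le _ _).trans hp
    · exact (natDegree_C_mul_le _ _).trans hq
  have hz : ∀ z ∈ T, hev d g (pt z) = 0 := by
    intro z hz
    obtain ⟨l, hl, h1, h2⟩ := pt_rat d p q hp hq hco hlead z
    rw [hT z hz] at h1 h2
    rw [hg, hev_lin, h1, h2]
    ring
  have hroot : ∀ x, some x ∈ T → x ∈ g.roots := by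
    intro x hx
    have h1 := hz _ hx
    have h2 : hev d g (pt (some x)) = g.eval x := hev_one d g hgd x
    rw [h2] at h1
    exact (mem_roots hg0).mpr h1
  have hcard : T.eraseNone.card ≤ g.natDegree := by
    refine le_trans (Finset.card_le_card (t := g.roots.toFinset) ?_)
      ((Multiset.toFinset_card_le _).trans (card_roots' g))
    intro x hx
    rw [Finset.mem_eraseNone] at hx
    exact Multiset.mem_toFinset.mpr (hroot x hx)
  by_cases hn : none ∈ T
  · have h1 := hz _ hn
    have h2 : hev d g (pt none) = g.coeff d := by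
      show hev d g (1, 0) = _
      rw [hev_zero]
      simp
    rw [h2] at h1
    have h3 : g.natDegree ≠ d := by
      intro h
      rw [← h] at h1
      exact hg0 (leadingCoeff_eq_zero.mp h1)
    have h4 : T ⊆ insert none (T.eraseNone.image some) := by
      intro z hz
      rcases z with _ | x
      · exact Finset.mem_insert_self _ _
      · exact Finset.mem_insert_of_mem (Finset.mem_image_of_mem _ (Finset.mem_eraseNone.mpr hz))
    have h5 := (Finset.card_le_card h4).trans (Finset.card_insert_le _ _)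
    have h6 := Finset.card_image_le (s := T.eraseNone) (f := (some : K → Option K))
    omega
  · have h4 : T ⊆ T.eraseNone.image some := by
      intro z hz
      rcases z with _ | x
      · exact absurd hz hn
      · exact Finset.mem_image_of_mem _ (Finset.mem_eraseNone.mpr hz)
    have h5 := Finset.card_le_card h4
    have h6 := Finset.card_image_le (s := T.eraseNone) (f := (some : K → Option K))
    omega

lemma hc_C_mul (d : ℕ) (s : K) (A P Q : K[X]) : hc d (C s * A) P Q = C s * hc d A P Q := by
  unfold hc hev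
  rw [Finset.mul_sum]
  apply Finset.sum_congr rfl
  intro i _
  rw [coeff_map, coeff_map, coeff_C_mul, C_mul]
  ring

lemma xr_self (z0 z1 z2 : Option K) : xr z0 z1 z2 z0 = 0 := by
  unfold xr
  rw [wedge_pt.mpr (rfl : z0 = z0), zero_mul, zero_div]

end

section
variable {k : Type v} {K : Type u} [Field k] [Field K] [Algebra k K] {Q : PlaceData.{w} k K}

lemma htF : HtF fun x : K => (ht Q x : ℝ) := by
  have hh := isHt (Q := Q)
  refine ⟨hh.nonneg, hh.zero, hh.one, ?_, hh.add, hh.mul, fun x => (hh.inv x).le⟩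
  intro x
  have h1 : (ht Q (-1 : K) : ℝ) ≤ 0 := by
    have := hh.root 2 ![1, 0] (-1) (by simp [Fin.sum_univ_two])
    rw [Fin.sum_univ_two] at this
    simpa [ht_one, ht_zero] using this
  have h2 := hh.mul (-1) x
  rw [neg_one_mul] at h2
  linarith

/-- The constant in the bound for the coefficients. -/
def cC (d : ℕ) : ℕ := 2 * ((2 * d + 1).factorial * ((2 * d + 1) * ((d + 1) * (384 * d * (d + 1)))))

/-- **A conjugate with coefficients of small height.** -/
theorem conj_small (d : ℕ) (hd : 2 ≤ d) (hinf : Infinite K) (p q : K[X])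
    (hmax : max p.natDegree q.natDegree = d)
    (hco : IsCoprime p q) (T : Finset (Option K)) (hT : 3 * d + 4 ≤ T.card) (B : ℝ)
    (hTp : ∀ z ∈ T, (Set.range fun m : ℕ => (ratP1 p q d)^[m] z).Finite)
    (hB : ∀ z0 z1 z2 z : Option K,
      (∀ y ∈ ({z0, z1, z2, z} : Set (Option K)),
        (Set.range fun m : ℕ => (ratP1 p q d)^[m] y).Finite) →
      z ≠ z0 → z1 ≠ z2 → z ≠ z2 → z1 ≠ z0 → (ht Q (xr z0 z1 z2 z) : ℝ) ≤ B) :
    ∃ a b c e : K, a * e - b * c ≠ 0 ∧ ∃ u w : K[X], IsCoprime u w ∧
      max u.natDegree w.natDegree = d ∧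
      (∀ n, (ht Q (u.coeff n) : ℝ) ≤
        2 * ((2 * d + 1).factorial * ((2 * d + 1 : ℕ) * ((d + 1) * B)))) ∧
      (∀ n, (ht Q (w.coeff n) : ℝ) ≤
        2 * ((2 * d + 1).factorial * ((2 * d + 1 : ℕ) * ((d + 1) * B)))) ∧
      (C a * p + C b * q) * hc d w (C a * X + C b) (C c * X + C e) =
        (C c * p + C e * q) * hc d u (C a * X + C b) (C c * X + C e) := by
  classical
  have hp : p.natDegree ≤ d := by rw [← hmax]; exact le_max_left _ _
  have hq : q.natDegree ≤ d := by rw [← hmax]; exact le_max_right _ _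
  have hlead : p.coeff d ≠ 0 ∨ q.coeff d ≠ 0 := by
    rcases le_total p.natDegree q.natDegree with h | h
    · right
      rw [max_eq_right h] at hmax
      rw [← hmax]
      apply leadingCoeff_ne_zero.mpr
      rintro rfl
      rw [natDegree_zero] at hmax
      omega
    · left
      rw [max_eq_left h] at hmax
      rw [← hmax]
      apply leadingCoeff_ne_zero.mpr
      rintro rfl
      rw [natDegree_zero] at hmax
      omega
  obtain ⟨z0, z1, z2, g0, g1, g2, h01, h02, h12⟩ := Finset.two_lt_card_iff.mp
    (show 2 < T.card by omega)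
  set a := (pt z0).2 * wedge (pt z1) (pt z2) with ha
  set b := -((pt z0).1 * wedge (pt z1) (pt z2)) with hb
  set c := (pt z2).2 * wedge (pt z1) (pt z0) with hc'
  set e := -((pt z2).1 * wedge (pt z1) (pt z0)) with he
  have hdet : a * e - b * c ≠ 0 := xr_det h01 h02 h12
  have hxr : ∀ z, xr z0 z1 z2 z = mo a b c e z := xr_mo z0 z1 z2
  have hden : ∀ z, z ≠ z2 → c * (pt z).1 + e * (pt z).2 ≠ 0 := fun z hz => xr_den h01 hz
  -- the points
  set U := T.filter fun z => z ≠ z2 ∧ ratP1 p q d z ≠ z2 with hU
  have hUc : 2 * d + 1 ≤ U.card := by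
    have h1 : T.filter (fun z => ¬(z ≠ z2 ∧ ratP1 p q d z ≠ z2)) ⊆
        insert z2 (T.filter fun z => ratP1 p q d z = z2) := by
      intro z hz
      rw [Finset.mem_filter] at hz
      rw [Finset.mem_insert, Finset.mem_filter]
      by_cases h : z = z2
      · exact Or.inl h
      · right
        refine ⟨hz.1, ?_⟩
        by_contra h'
        exact hz.2 ⟨h, h'⟩
    have h2 := (Finset.card_le_card h1).trans (Finset.card_insert_le _ _)
    have h3 := fib_card d (by omega) p q hp hq hco hlead z2 (T.filter fun z => ratP1 p q d z = z2)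
      (fun z hz => (Finset.mem_filter.mp hz).2)
    have h4 : U.card + (T.filter (fun z => ¬(z ≠ z2 ∧ ratP1 p q d z ≠ z2))).card = T.card :=
      Finset.card_filter_add_card_filter_not _
    omega
  obtain ⟨U', hU's, hU'c⟩ := Finset.exists_subset_card_eq hUc
  let ε : Fin (2 * d + 1) ≃ U' := (Finset.equivFinOfCardEq hU'c).symm
  have hε : ∀ i, ((ε i : U') : Option K) ∈ U := fun i => hU's (ε i).2
  have hεT : ∀ i, ((ε i : U') : Option K) ∈ T := fun i => (Finset.mem_filter.mp (hε i)).1
  have hε2 : ∀ i, ((ε i : U') : Option K) ≠ z2 := fun i => (Finset.mem_filter.mp (hε i)).2.1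
  have hε3 : ∀ i, ratP1 p q d ((ε i : U') : Option K) ≠ z2 :=
    fun i => (Finset.mem_filter.mp (hε i)).2.2
  have hnext : ∀ z : Option K, (Set.range fun m : ℕ => (ratP1 p q d)^[m] z).Finite →
      (Set.range fun m : ℕ => (ratP1 p q d)^[m] (ratP1 p q d z)).Finite := by
    intro z hz
    refine hz.subset ?_
    rintro _ ⟨m, rfl⟩
    exact ⟨m + 1, rfl⟩
  have hB0 : ∀ z, (Set.range fun m : ℕ => (ratP1 p q d)^[m] z).Finite → z ≠ z2 →
      (ht Q (mo a b c e z) : ℝ) ≤ B := by
    have hb1 : ∀ z, (Set.range fun m : ℕ => (ratP1 p q d)^[m] z).Finite → z ≠ z2 → z ≠ z0 →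
        (ht Q (mo a b c e z) : ℝ) ≤ B := by
      intro z hz hz2 hz0
      rw [← hxr]
      apply hB z0 z1 z2 z _ hz0 h12 hz2 h01.symm
      intro y hy
      rcases hy with rfl | rfl | rfl | rfl
      · exact hTp _ g0
      · exact hTp _ g1
      · exact hTp _ g2
      · exact hz
    intro z hz hz2
    by_cases hz0 : z = z0
    · rw [hz0, ← hxr, xr_self, ht_zero]
      have h1 := hb1 z1 (hTp z1 g1) h12 h01.symm
      have h2 : (0 : ℝ) ≤ ht Q (mo a b c e z1) := (isHt (Q := Q)).nonneg _
      push_cast
      linarith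
    · exact hb1 z hz hz2 hz0
  have hval : ∀ i, (cw d a b c e p q).eval (mo a b c e ((ε i : U') : Option K)) ≠ 0 ∧
      (cu d a b c e p q).eval (mo a b c e ((ε i : U') : Option K)) /
        (cw d a b c e p q).eval (mo a b c e ((ε i : U') : Option K)) =
        mo a b c e (ratP1 p q d ((ε i : U') : Option K)) := fun i =>
    mo_val d a b c e hdet p q hp hq hco hlead _ (hden _ (hε2 i)) (hden _ (hε3 i))
  obtain ⟨s, hs, hcoef⟩ := coef_bound d (by omega) (htF (Q := Q)) B (cu d a b c e p q)
    (cw d a b c e p q) (cj_coprime d a b c e hdet p q hp hq hco hlead)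
    (cj_max d a b c e hdet p q hp hq hco hlead)
    (fun i => mo a b c e ((ε i : U') : Option K)) (by
      intro i j hij
      exact ε.injective (Subtype.ext (mo_inj hdet (hden _ (hε2 i)) (hden _ (hε2 j)) hij)))
    (fun i => (hval i).1) (fun i => hB0 _ (hTp _ (hεT i)) (hε2 i))
    (fun i => by
      show (ht Q ((cu d a b c e p q).eval (mo a b c e ((ε i : U') : Option K)) /
        (cw d a b c e p q).eval (mo a b c e ((ε i : U') : Option K))) : ℝ) ≤ B
      rw [(hval i).2]
      exact hB0 _ (hnext _ (hTp _ (hεT i))) (hε3 i))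
  have hsu : IsUnit (C s : K[X]) := isUnit_C.mpr (isUnit_iff_ne_zero.mpr hs)
  refine ⟨a, b, c, e, hdet, C s * cu d a b c e p q, C s * cw d a b c e p q, ?_, ?_, ?_, ?_, ?_⟩
  · rw [isCoprime_mul_unit_left_left hsu, isCoprime_mul_unit_left_right hsu]
    exact cj_coprime d a b c e hdet p q hp hq hco hlead
  · rw [natDegree_C_mul hs, natDegree_C_mul hs]
    exact cj_max d a b c e hdet p q hp hq hco hlead
  · intro n
    rw [coeff_C_mul]
    exact (hcoef n).1
  · intro n
    rw [coeff_C_mul]
    exact (hcoef n).2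
  · rw [hc_C_mul, hc_C_mul]
    have h := cj_id d a b c e p q hp hq
    linear_combination (C s) * h

end

end Pool.Agent.E8helper65.HS
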