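import Pool.Agent.E8helper65.HS.Main
import Pool.Agent.E8helper65.HS.Fin

/-!
# Heights of cross ratios of preperiodic points: the final statement for `ratP1`
-/

set_option autoImplicit false

namespace Pool.Agent.E8helper65.HS

open Pool.Agent.W277.UB Pool.Agent.W277.UG Pool.Agent.W277.UH Finset Polynomial
open Pool.Agent.E8helper88.Mul

universe u v

/-- the height of an element -/
noncomputable def hgt (k : Type*) {K : Type*} [Field k] [Field K] [Algebra k K] (a : K) : ℕ := by
  classical exact if IsAlgebraic k a then 0 else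
    Module.finrank (IntermediateField.adjoin k {a}) K

/-- The finite orbits. -/
def Pre {K : Type*} [Field K] (p q : K[X]) (d : ℕ) : Set (Option K) :=
  {z | (Set.range fun m : ℕ => (ratP1 p q d)^[m] z).Finite}

theorem final (hDEG : S_DEG.{u, v}) (d : ℕ) (hd : 2 ≤ d) : ∃ N₁ : ℕ,
    ∀ (k : Type v) (K : Type u) [Field k] [CharZero k] [Field K] [Algebra k K]
      [Algebra (RatFunc k) K] [IsScalarTower k (RatFunc k) K] [FiniteDimensional (RatFunc k) K]
      (n : ℕ) (b : Module.Basis (Fin n) (RatFunc k) K),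
      (∀ i, ((algebraMap (RatFunc k) K).comp
        (algebraMap (Polynomial k) (RatFunc k))).IsIntegralElem (b i)) →
    ∃ δ : Polynomial k, algebraMap (Polynomial k) (RatFunc k) δ = Algebra.discr (RatFunc k) b ∧
    ∀ p q : Polynomial K, IsCoprime p q → max p.natDegree q.natDegree = d →
      ¬ ConjConst (algebraicClosure k K) p q d →
      (N₁ : ℕ∞) < (Pre p q d).encard →
      (∀ z0 ∈ Pre p q d, ∀ z1 ∈ Pre p q d, ∀ z2 ∈ Pre p q d, ∀ z ∈ Pre p q d,
        z ≠ z0 → z1 ≠ z2 → z ≠ z2 → z1 ≠ z0 →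
        hgt k (xr z0 z1 z2 z) ≤ 768 * d * (d + 1) * δ.natDegree) ∧
      ∃ a b c e : K, a * e - b * c ≠ 0 ∧ ∃ u w : K[X], IsCoprime u w ∧
        max u.natDegree w.natDegree = d ∧
        (∀ n, hgt k (u.coeff n) ≤
          1536 * d * (d + 1) ^ 2 * (2 * d + 1) * (2 * d + 1).factorial * δ.natDegree) ∧
        (∀ n, hgt k (w.coeff n) ≤
          1536 * d * (d + 1) ^ 2 * (2 * d + 1) * (2 * d + 1).factorial * δ.natDegree) ∧
        (C a * p + C b * q) * hc d w (C a * X + C b) (C c * X + C e) =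
          (C c * p + C e * q) * hc d u (C a * X + C b) (C c * X + C e) := by
  classical
  obtain ⟨N₁, hN₁⟩ := corePre.{u, u, u} d hd
  refine ⟨max N₁ (3 * d + 4), ?_⟩
  intro k K _ _ _ _ _ _ _ n b hb
  obtain ⟨δ, hδ, Q, hQ1, hQ2⟩ := exists_Q hDEG k K n b hb
  refine ⟨δ, hδ, ?_⟩
  intro p q hco hmax hiso hN
  have : CharZero (algebraicClosure k K) := charZero_of_injective_algebraMap
      (algebraMap k (algebraicClosure k K)).injective
  have hK : CharZero K := charZero_of_injective_algebraMap (algebraMap k K).injective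
  have hinf : Infinite K := inferInstance
  have hQR : (Q.lossT : ℝ) ≤ 2 * δ.natDegree := by exact_mod_cast hQ1
  set B : ℝ := 768 * (d : ℝ) * (d + 1) * δ.natDegree with hB
  have hNN : (N₁ : ℕ∞) < (Pre p q d).encard := lt_of_le_of_lt (by exact_mod_cast le_max_left _ _) hN
  have hNN' : ((3 * d + 4 : ℕ) : ℕ∞) < (Pre p q d).encard :=
    lt_of_le_of_lt (by exact_mod_cast le_max_right _ _) hN
  have hht : ∀ z0 z1 z2 z : Option K,
      (∀ y ∈ ({z0, z1, z2, z} : Set (Option K)),
        (Set.range fun m : ℕ => (ratP1 p q d)^[m] y).Finite) →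
      z ≠ z0 → z1 ≠ z2 → z ≠ z2 → z1 ≠ z0 → (ht Q (xr z0 z1 z2 z) : ℝ) ≤ B := by
    intro z0 z1 z2 z hz n0 n12 n2 n10
    obtain ⟨S, hS⟩ := exists_supp (Q := Q) {xr z0 z1 z2 z}
    rw [ht_eq _ S (hS _ (Finset.mem_singleton_self _)).1]
    have h1 := hN₁ (algebraicClosure k K) K Q p q hmax hco hiso hNN z0 z1 z2 z hz n0 n12 n2 n10 S
    push_cast
    refine h1.trans ?_
    rw [hB]
    have h2 : (0 : ℝ) ≤ 384 * (d : ℝ) * (d + 1) := by positivity
    nlinarith
  -- from the place data to degrees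
  have hdeg : ∀ (a : K) (M : ℝ), 0 ≤ M → (ht Q a : ℝ) ≤ M → (hgt k a : ℝ) ≤ M := by
    intro a M hM ha
    unfold hgt
    split_ifs with h
    · simpa using hM
    · obtain ⟨S, hS⟩ := exists_supp (Q := Q) {a}
      have h1 := hQ2 a h S (hS a (Finset.mem_singleton_self _)).1
      rw [← ht_eq a S (hS a (Finset.mem_singleton_self _)).1] at h1
      refine le_trans ?_ ha
      exact_mod_cast h1
  have hB0 : 0 ≤ B := by positivity
  refine ⟨?_, ?_⟩
  · intro z0 g0 z1 g1 z2 g2 z g n0 n12 n2 n10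
    have h1 := hdeg _ _ hB0 (hht z0 z1 z2 z (by
      intro y hy
      rcases hy with rfl | rfl | rfl | rfl
      · exact g0
      · exact g1
      · exact g2
      · exact g) n0 n12 n2 n10)
    rw [hB] at h1
    exact_mod_cast h1
  · obtain ⟨T, hTs, hT⟩ := Set.exists_subset_encard_eq hNN'.le
    have hTf : T.Finite := by
      apply Set.finite_of_encard_eq_coe (k := 3 * d + 4)
      rw [hT]
    have hTc : hTf.toFinset.card = 3 * d + 4 := by
      have h5 : (hTf.toFinset.card : ℕ∞) = ((3 * d + 4 : ℕ) : ℕ∞) := by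
        rw [← hT, hTf.encard_eq_coe_toFinset_card]
      exact_mod_cast h5
    obtain ⟨a, b', c, e, hdet, u, w, huw, humax, hu, hw, hid⟩ := conj_small (Q := Q) d hd hinf p q
      hmax hco hTf.toFinset hTc.ge B (fun z hz => hTs (hTf.mem_toFinset.mp hz)) hht
    have hM : (2 : ℝ) * ((2 * d + 1).factorial * ((2 * d + 1 : ℕ) * ((d + 1) * B))) =
        ((1536 * d * (d + 1) ^ 2 * (2 * d + 1) * (2 * d + 1).factorial * δ.natDegree : ℕ) : ℝ) := by
      rw [hB]
      push_cast
      ring
    rw [hM] at hu hw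
    refine ⟨a, b', c, e, hdet, u, w, huw, humax, ?_, ?_, hid⟩
    · intro m
      have := hdeg _ _ (by positivity) (hu m)
      exact_mod_cast this
    · intro m
      have := hdeg _ _ (by positivity) (hw m)
      exact_mod_cast this

end Pool.Agent.E8helper65.HS
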