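import Pool.Agent.E8helper65.HS.Core
import Pool.Agent.W277.UH.F2

/-!
# Heights of cross ratios of preperiodic points: points of the projective line
-/

namespace Pool.Agent.E8helper65.HS

open Pool.Agent.W277.UB Pool.Agent.W277.UG Pool.Agent.W277.UH Finset Polynomial

universe u v w

section
variable {K : Type*} [Field K]

/-- homogeneous coordinates -/
def pt : Option K → K × K
  | some x => (x, 1)
  | none => (1, 0)

/-- the determinant -/
def wedge (a b : K × K) : K := a.1 * b.2 - a.2 * b.1

/-- the cross ratio of four points of the projective line -/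
noncomputable def xr (z0 z1 z2 z : Option K) : K :=
  (wedge (pt z) (pt z0) * wedge (pt z1) (pt z2)) / (wedge (pt z) (pt z2) * wedge (pt z1) (pt z0))

/-- the scaling factor -/
def sf (c : K) : Option K → K
  | some x => x - c
  | none => 1

lemma sf_ne {c : K} {z : Option K} (h : z ≠ some c) : sf c z ≠ 0 := by
  rcases z with _ | x
  · exact one_ne_zero
  · exact sub_ne_zero.mpr fun h' => h (by rw [h'])

lemma phc_sub {c : K} {z w : Option K} (hz : z ≠ some c) (hw : w ≠ some c) :
    phc c z - phc c w = -(wedge (pt z) (pt w)) / (sf c z * sf c w) := by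
  have h1 := sf_ne hz
  have h2 := sf_ne hw
  rcases z with _ | x <;> rcases w with _ | y
  · simp [phc, wedge, pt, sf]
  · simp only [phc, wedge, pt, sf] at *
    field_simp
    ring
  · simp only [phc, wedge, pt, sf] at *
    field_simp
    ring
  · simp only [phc, wedge, pt, sf] at *
    field_simp
    ring

lemma xr_phc {c : K} {z0 z1 z2 z : Option K} (h0 : z0 ≠ some c) (h1 : z1 ≠ some c)
    (h2 : z2 ≠ some c) (h : z ≠ some c) :
    xr z0 z1 z2 z = cr (phc c z0) (phc c z1) (phc c z2) (phc c z) := by
  unfold xr cr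
  rw [phc_sub h h0, phc_sub h1 h2, phc_sub h h2, phc_sub h1 h0]
  have e0 := sf_ne h0
  have e1 := sf_ne h1
  have e2 := sf_ne h2
  have e3 := sf_ne h
  by_cases hw : wedge (pt z) (pt z2) * wedge (pt z1) (pt z0) = 0
  · rw [hw, div_zero]
    have : -(wedge (pt z) (pt z2)) / (sf c z * sf c z2) *
        (-(wedge (pt z1) (pt z0)) / (sf c z1 * sf c z0)) = 0 := by
      rw [div_mul_div_comm, neg_mul_neg, hw, zero_div]
    rw [this, div_zero]
  · have g1 : wedge (pt z) (pt z2) ≠ 0 := left_ne_zero_of_mul hw
    have g2 : wedge (pt z1) (pt z0) ≠ 0 := right_ne_zero_of_mul hw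
    field_simp

end

/-- **The main inequality for points of the projective line.** -/
theorem coreP (d : ℕ) (hd : 2 ≤ d) : ∃ N₁ : ℕ,
    ∀ (k : Type v) (K : Type u) [Field k] [CharZero k] [Field K] [Algebra k K]
    (Q : PlaceData.{w} k K) (p q : Polynomial K), max p.natDegree q.natDegree = d → IsCoprime p q →
    ∀ P : Finset (Option K), (∀ z ∈ P, ratP1 p q d z ∈ P) →
    ¬ ConjConst k p q d → N₁ ≤ P.card →
    ∀ z0 ∈ P, ∀ z1 ∈ P, ∀ z2 ∈ P, ∀ z ∈ P, z ≠ z0 → z1 ≠ z2 → z ≠ z2 → z1 ≠ z0 →
    ∀ S' : Finset Q.Pl, ∑ v ∈ S', (Q.wt v : ℝ) * Q.pole v (xr z0 z1 z2 z) ≤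
      384 * (d : ℝ) * (d + 1) * Q.lossT := by
  classical
  obtain ⟨B, hB⟩ := core.{u, v, w} d hd
  refine ⟨B, ?_⟩
  intro k K _ _ _ _ Q p q hmax hco P hP hiso hN
  have hK : CharZero K := charZero_of_injective_algebraMap (algebraMap k K).injective
  have hinf : Infinite K := inferInstance
  have hp : p.natDegree ≤ d := by rw [← hmax]; exact le_max_left _ _
  have hq : q.natDegree ≤ d := by rw [← hmax]; exact le_max_right _ _
  have hlead : p.coeff d ≠ 0 ∨ q.coeff d ≠ 0 := by
    rcases le_total p.natDegree q.natDegree with h | h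
    · right
      rw [max_eq_right h] at hmax
      rw [← hmax]
      apply leadingCoeff_ne_zero.mpr
      rintro rfl
      rw [natDegree_zero] at hmax
      omega
    · left
      rw [max_eq_left h] at hmax
      rw [← hmax]
      apply leadingCoeff_ne_zero.mpr
      rintro rfl
      rw [natDegree_zero] at hmax
      omega
  have hX : p - X * q ≠ 0 := by
    intro h0
    have h1 : p = X * q := sub_eq_zero.mp h0
    have h2 : IsUnit q := by
      obtain ⟨a, b, hab⟩ := hco
      rw [h1] at hab
      apply IsUnit.of_mul_eq_one (a * X + b)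
      rw [← hab]
      ring
    have h3 := natDegree_eq_zero_of_isUnit h2
    have h4 : p.natDegree ≤ 1 := by
      rw [h1]
      refine natDegree_mul_le.trans ?_
      rw [h3, add_zero]
      exact natDegree_X_le
    rw [h3] at hmax
    omega
  obtain ⟨c, hc⟩ := Infinite.exists_notMem_finset
    ((P.image fun z => z.getD 0) ∪ (p - X * q).roots.toFinset)
  rw [Finset.mem_union, not_or] at hc
  have hcP : some c ∉ P := by
    intro h
    apply hc.1
    exact Finset.mem_image.mpr ⟨some c, h, rfl⟩
  have hcr : p.eval c - c * q.eval c ≠ 0 := by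
    intro h
    apply hc.2
    rw [Multiset.mem_toFinset, mem_roots hX, IsRoot.def, eval_sub, eval_mul, eval_X]
    exact h
  have hpq : (p - C c * q).natDegree ≤ d :=
    (natDegree_sub_le _ _).trans (max_le hp ((natDegree_C_mul_le _ _).trans hq))
  have hq'd : (pc d (p - C c * q) c).natDegree = d := by
    apply le_antisymm (pc_degree _ _ _)
    apply le_natDegree_of_ne_zero
    rw [pc_coeff d _ hpq, eval_sub, eval_mul, eval_C]
    exact hcr
  have hco' := pc_coprime d (by omega) p q hp hq hco hlead c
  have hinj : Set.InjOn (phc c) (P : Set (Option K)) := by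
    intro z hz z' hz' h
    rcases z with _ | x
    · rcases z' with _ | x'
      · rfl
      · exfalso
        have hx' : x' ≠ c := by
          rintro rfl
          exact hcP hz'
        have h1 : (0 : K) = (x' - c)⁻¹ := h
        exact inv_ne_zero (sub_ne_zero.mpr hx') h1.symm
    · rcases z' with _ | x'
      · exfalso
        have hx : x ≠ c := by
          rintro rfl
          exact hcP hz
        have h1 : (x - c)⁻¹ = (0 : K) := h
        exact inv_ne_zero (sub_ne_zero.mpr hx) h1
      · have h1 : (x - c)⁻¹ = (x' - c)⁻¹ := h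
        have h2 := inv_injective h1
        have h3 : x = x' := sub_left_injective h2
        rw [h3]
  have hst : ∀ y ∈ P.image (phc c), (pc d (p - C c * q) c).eval y ≠ 0 ∧
      (pc d q c).eval y / (pc d (p - C c * q) c).eval y ∈ P.image (phc c) := by
    intro y hy
    obtain ⟨z, hz, rfl⟩ := Finset.mem_image.mp hy
    have hFz := hP z hz
    rcases z with _ | x
    · have hval : phc c (none : Option K) = 0 := rfl
      rw [hval, pc_eval_zero, pc_eval_zero, coeff_sub, coeff_C_mul]
      by_cases hqd : q.coeff d = 0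
      · have hpd : p.coeff d ≠ 0 := hlead.resolve_right (fun h => h hqd)
        rw [hqd, mul_zero, sub_zero, zero_div]
        rw [ratP1_none0 p q d hqd] at hFz
        exact ⟨hpd, Finset.mem_image.mpr ⟨none, hFz, rfl⟩⟩
      · rw [ratP1_none p q d hqd] at hFz
        have h1 : p.coeff d / q.coeff d ≠ c := by
          intro h
          rw [h] at hFz
          exact hcP hFz
        have h2 : p.coeff d - c * q.coeff d ≠ 0 := by
          intro h
          apply h1
          rw [div_eq_iff hqd]
          exact sub_eq_zero.mp h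
        refine ⟨h2, Finset.mem_image.mpr ⟨_, hFz, ?_⟩⟩
        show (p.coeff d / q.coeff d - c)⁻¹ = _
        rw [div_sub' hqd, inv_div, mul_comm (q.coeff d) c]
    · have hxc : x ≠ c := by
        rintro rfl
        exact hcP hz
      have h0 : x - c ≠ 0 := sub_ne_zero.mpr hxc
      have hval : phc c (some x) = (x - c)⁻¹ := rfl
      have e1 := pc_eval_inv d q hq c x hxc
      have e2 := pc_eval_inv d (p - C c * q) hpq c x hxc
      rw [eval_sub, eval_mul, eval_C] at e2
      rw [hval]
      have hpow : (x - c) ^ d ≠ 0 := pow_ne_zero _ h0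
      have hratio : (pc d q c).eval (x - c)⁻¹ / (pc d (p - C c * q) c).eval (x - c)⁻¹ =
          q.eval x / (p.eval x - c * q.eval x) := by
        have h9 : (pc d q c).eval (x - c)⁻¹ / (pc d (p - C c * q) c).eval (x - c)⁻¹ =
            ((x - c) ^ d * (pc d q c).eval (x - c)⁻¹) /
              ((x - c) ^ d * (pc d (p - C c * q) c).eval (x - c)⁻¹) :=
          (mul_div_mul_left _ _ hpow).symm
        rw [h9, e1, e2]
      rw [hratio]
      have hne' : p.eval x - c * q.eval x ≠ 0 →
          (pc d (p - C c * q) c).eval (x - c)⁻¹ ≠ 0 := by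
        intro h h'
        rw [h', mul_zero] at e2
        exact h e2.symm
      by_cases hqx : q.eval x = 0
      · have hpx : p.eval x ≠ 0 := by
          intro hpx
          obtain ⟨a, b, hab⟩ := hco
          have := congrArg (eval x) hab
          rw [eval_add, eval_mul, eval_mul, hpx, hqx, mul_zero, mul_zero, add_zero,
            eval_one] at this
          exact zero_ne_one this
        rw [ratP1_some0 p q d x hqx] at hFz
        refine ⟨hne' (by rw [hqx, mul_zero, sub_zero]; exact hpx),
          Finset.mem_image.mpr ⟨none, hFz, ?_⟩⟩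
        rw [hqx, zero_div]
        rfl
      · rw [ratP1_some p q d x hqx] at hFz
        have h1 : p.eval x / q.eval x ≠ c := by
          intro h
          rw [h] at hFz
          exact hcP hFz
        have h2 : p.eval x - c * q.eval x ≠ 0 := by
          intro h
          apply h1
          rw [div_eq_iff hqx]
          exact sub_eq_zero.mp h
        refine ⟨hne' h2, Finset.mem_image.mpr ⟨_, hFz, ?_⟩⟩
        show (p.eval x / q.eval x - c)⁻¹ = _
        rw [div_sub' hqx, inv_div, mul_comm (q.eval x) c]
  intro z0 g0 z1 g1 z2 g2 z g n0 n12 n2 n10 S'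
  have nc : ∀ y ∈ P, y ≠ some c := by
    rintro y hy rfl
    exact hcP hy
  have hi : ∀ y ∈ P, ∀ y' ∈ P, y ≠ y' → phc c y ≠ phc c y' :=
    fun y hy y' hy' hne h => hne (hinj hy hy' h)
  have h1 := hB k K Q (pc d q c) (pc d (p - C c * q) c) (pc_degree _ _ _) hq'd hco' (P.image (phc c))
    hst (fun h => hiso (conj_transfer d p q hp hq c h))
    (by rw [Finset.card_image_of_injOn hinj]; exact hN)
    _ (Finset.mem_image_of_mem _ g0) _ (Finset.mem_image_of_mem _ g1)
    _ (Finset.mem_image_of_mem _ g2) _ (Finset.mem_image_of_mem _ g)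
    (hi z g z0 g0 n0) (hi z1 g1 z2 g2 n12) (hi z g z2 g2 n2) (hi z1 g1 z0 g0 n10) S'
  rw [xr_phc (nc z0 g0) (nc z1 g1) (nc z2 g2) (nc z g)]
  exact h1

/-- **The main inequality for preperiodic points.** -/
theorem corePre (d : ℕ) (hd : 2 ≤ d) : ∃ N₁ : ℕ,
    ∀ (k : Type v) (K : Type u) [Field k] [CharZero k] [Field K] [Algebra k K]
    (Q : PlaceData.{w} k K) (p q : Polynomial K), max p.natDegree q.natDegree = d → IsCoprime p q →
    ¬ ConjConst k p q d →
    (N₁ : ℕ∞) < {z : Option K | (Set.range fun m : ℕ => (ratP1 p q d)^[m] z).Finite}.encard →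
    ∀ z0 z1 z2 z : Option K,
      (∀ y ∈ ({z0, z1, z2, z} : Set (Option K)),
        (Set.range fun m : ℕ => (ratP1 p q d)^[m] y).Finite) →
    z ≠ z0 → z1 ≠ z2 → z ≠ z2 → z1 ≠ z0 →
    ∀ S' : Finset Q.Pl, ∑ v ∈ S', (Q.wt v : ℝ) * Q.pole v (xr z0 z1 z2 z) ≤
      384 * (d : ℝ) * (d + 1) * Q.lossT := by
  classical
  obtain ⟨B, hB⟩ := coreP.{u, v, w} d hd
  refine ⟨B, ?_⟩
  intro k K _ _ _ _ Q p q hmax hco hiso hN z0 z1 z2 z hz n0 n12 n2 n10 S'
  obtain ⟨T, hTs, hT⟩ := Set.exists_subset_encard_eq hN.le
  have hTf : T.Finite := by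
    apply Set.finite_of_encard_eq_coe (k := B)
    rw [hT]
  set T' : Set (Option K) := T ∪ {z0, z1, z2, z} with hT'
  have hT'f : T'.Finite := hTf.union (Set.toFinite _)
  have hT's : ∀ y ∈ T', (Set.range fun m : ℕ => (ratP1 p q d)^[m] y).Finite := by
    intro y hy
    rcases hy with hy | hy
    · exact hTs hy
    · exact hz y hy
  have h1 : (⋃ y ∈ T', Set.range fun m : ℕ => (ratP1 p q d)^[m] y).Finite :=
    hT'f.biUnion fun y hy => hT's y hy
  have hsub : ∀ y ∈ T', y ∈ h1.toFinset := by
    intro y hy
    rw [Set.Finite.mem_toFinset, Set.mem_iUnion₂]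
    exact ⟨y, hy, 0, rfl⟩
  refine hB k K Q p q hmax hco h1.toFinset ?_ hiso ?_ z0 (hsub _ ?_) z1 (hsub _ ?_) z2 (hsub _ ?_)
    z (hsub _ ?_) n0 n12 n2 n10 S'
  · intro y hy
    rw [Set.Finite.mem_toFinset, Set.mem_iUnion₂] at hy ⊢
    obtain ⟨w, hw, m, hm⟩ := hy
    refine ⟨w, hw, m + 1, ?_⟩
    simp only at hm ⊢
    rw [Function.iterate_succ_apply', hm]
  · have h3 : hTf.toFinset ⊆ h1.toFinset := by
      intro y hy
      rw [Set.Finite.mem_toFinset] at hy
      exact hsub y (Or.inl hy)
    have h4 := Finset.card_le_card h3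
    have h5 : (hTf.toFinset.card : ℕ∞) = B := by
      rw [← hT, hTf.encard_eq_coe_toFinset_card]
    have h6 : hTf.toFinset.card = B := by exact_mod_cast h5
    omega
  · right; simp
  · right; simp
  · right; simp
  · right; simp

end Pool.Agent.E8helper65.HS
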