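import Pool.Agent.E8helper65.HS.Pd
import Pool.Agent.E8helper65.HS.Opt
import Pool.Agent.TH450.FH.Main2

/-!
# Heights of cross ratios of preperiodic points: the discriminant
-/

set_option autoImplicit false

namespace Pool.Agent.E8helper65.HS

open Pool.Agent.W277.UB Pool.Agent.W277.UG Pool.Agent.W277.UH Finset Polynomial
open Pool.Agent.H951R3.PB Pool.Agent.TH450.PC Pool.Agent.TH450.FG Pool.Agent.TH450.FH
open Pool.Agent.W277.UD

universe u v

/-- place data adapted to the discriminant -/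
theorem exists_Q (hDEG : S_DEG.{u, v}) (k : Type v) (K : Type u) [Field k] [CharZero k] [Field K]
    [Algebra k K] [Algebra (RatFunc k) K] [IsScalarTower k (RatFunc k) K]
    [FiniteDimensional (RatFunc k) K] (n : ℕ) (b : Module.Basis (Fin n) (RatFunc k) K)
    (hb : ∀ i, ((algebraMap (RatFunc k) K).comp
        (algebraMap (Polynomial k) (RatFunc k))).IsIntegralElem (b i)) :
    ∃ δ : Polynomial k, algebraMap (Polynomial k) (RatFunc k) δ = Algebra.discr (RatFunc k) b ∧
    ∃ Q : PlaceData.{u} (algebraicClosure k K) K, Q.lossT ≤ 2 * δ.natDegree ∧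
      ∀ a : K, Transcendental k a → ∀ S : Finset Q.Pl, (∀ v, v ∉ S → Q.pole v a = 0) →
        (Module.finrank (IntermediateField.adjoin k {a}) K : ℤ) ≤
          ∑ v ∈ S, Q.wt v * Q.pole v a := by
  classical
  obtain ⟨D0, hD0, hDker⟩ := exists_deriv k K
  obtain ⟨c1⟩ := exists_chartX1 k K D0 hD0
  obtain ⟨c2⟩ := exists_chartX2 k K D0 hD0
  choose pr hpr hprpos using fun v => exists_prime_v c1 v
  set ram : c1.Pl → ℕ := fun v => (c1.ord v (algebraMap (RatFunc k) K
    (algebraMap (Polynomial k) (RatFunc k) (pr v)))).toNat with hev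
  have hev' : ∀ v, c1.ord v (algebraMap (RatFunc k) K
      (algebraMap (Polynomial k) (RatFunc k) (pr v))) = ram v := by
    intro v
    rw [hev]
    simp only
    rw [Int.toNat_of_nonneg (hprpos v).le]
  have hev1 : ∀ v, 1 ≤ ram v := by
    intro v
    have h1 := hprpos v
    rw [hev' v] at h1
    exact_mod_cast h1
  have hφ : ∀ v (r : Polynomial k), GG (c1.ord v) 0 (((algebraMap (RatFunc k) K).comp
      (algebraMap (Polynomial k) (RatFunc k))) r) := by
    intro v r h
    refine c1.ord_R v r ?_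
    rintro rfl
    simp at h
  obtain ⟨δ, hδ, hT⟩ := disc_bound c1 pr ram hpr hev1 hev' b
    (fun i v => GG_of_integral (c1.val v) _ (hφ v) (b i) (hb i))
  obtain ⟨Q, hQ, hQ2⟩ := exists_pdH k K hDEG D0 hD0 hDker c1 c2 pr ram hpr hev1 hev' _ hT
  exact ⟨δ, hδ, Q, hQ, hQ2⟩

end Pool.Agent.E8helper65.HS
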