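import Mathlib

/-!
# Heights of cross ratios of preperiodic points: the algebraic part
-/

set_option autoImplicit false

namespace Pool.Agent.E8helper65.HS

universe u v

/-- If the norms of `a - c`, `c ∈ k`, multiplied by a fixed polynomial `W`, are polynomials of degree
at most `H`, then `[K : k(a)] ≤ H`. -/
def S_DEG : Prop := ∀ (k : Type v) (K : Type u) [Field k] [CharZero k] [Field K] [Algebra k K]
    [Algebra (RatFunc k) K] [IsScalarTower k (RatFunc k) K] [FiniteDimensional (RatFunc k) K]
    (a : K) (W : Polynomial k) (H : ℕ), W ≠ 0 → Transcendental k a →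
    (∀ c : k, ∃ q : Polynomial k, q.natDegree ≤ H ∧
      algebraMap (Polynomial k) (RatFunc k) W * Algebra.norm (RatFunc k) (a - algebraMap k K c) =
        algebraMap (Polynomial k) (RatFunc k) q) →
    Module.finrank (IntermediateField.adjoin k {a}) K ≤ H

end Pool.Agent.E8helper65.HS
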